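import Mathlib

set_option autoImplicit false

namespace Pool.Agent.H929TP

variable {R : Type*} [CommRing R] {N : Type*} [AddCommGroup N] [Module R N]

/-- Elements of `(x_1, ..., x_s) N` are combinations of the `x_i`. -/
lemma exists_comb {s : ℕ} (x : Fin s → R) (v : N)
    (hv : v ∈ Ideal.span (Set.range x) • (⊤ : Submodule R N)) :
    ∃ μ : Fin s → N, v = ∑ k, x k • μ k := by
  let P : Submodule R N :=
    { carrier := {w | ∃ μ : Fin s → N, w = ∑ k, x k • μ k}
      add_mem' := by
        rintro a b ⟨μ, rfl⟩ ⟨ν, rfl⟩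
        exact ⟨fun k => μ k + ν k, by simp [smul_add, Finset.sum_add_distrib]⟩
      zero_mem' := ⟨fun _ => 0, by simp⟩
      smul_mem' := by
        rintro c a ⟨μ, rfl⟩
        refine ⟨fun k => c • μ k, ?_⟩
        rw [Finset.smul_sum]
        exact Finset.sum_congr rfl fun k _ => smul_comm _ _ _ }
  have h : Ideal.span (Set.range x) • (⊤ : Submodule R N) ≤ P := by
    rw [Submodule.smul_le]
    intro r hr w _
    induction hr using Submodule.span_induction with
    | mem z hz =>
      obtain ⟨k, rfl⟩ := hz
      refine ⟨fun k' => if k' = k then w else 0, ?_⟩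
      simp [smul_ite]
    | zero => rw [zero_smul]; exact P.zero_mem
    | add a b _ _ ha hb => rw [add_smul]; exact P.add_mem ha hb
    | smul c a _ ha => rw [smul_assoc]; exact P.smul_mem c ha
  exact h hv

/-- The first Koszul homology of a regular sequence vanishes. -/
lemma koszul : ∀ (s : ℕ) (x : Fin s → R)
    (_ : ∀ (i : Fin s) (v : N), x i • v ∈ Ideal.span (x '' {j | j < i}) • (⊤ : Submodule R N) →
      v ∈ Ideal.span (x '' {j | j < i}) • (⊤ : Submodule R N))
    (n : Fin s → N) (_ : ∑ j, x j • n j = 0),
    ∃ ρ : Fin s → Fin s → N, (∀ j k, ρ j k = - ρ k j) ∧ (∀ j, ρ j j = 0) ∧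
      ∀ j, n j = ∑ k, x k • ρ j k := by
  intro s
  induction s with
  | zero => intro x _ n _; exact ⟨fun j => j.elim0, fun j => j.elim0, fun j => j.elim0,
      fun j => j.elim0⟩
  | succ s ih =>
    intro x hx n hn
    rw [Fin.sum_univ_castSucc] at hn
    have himg : x '' {j | j < Fin.last s} = Set.range (fun k : Fin s => x k.castSucc) := by
      ext z
      constructor
      · rintro ⟨j, hj, rfl⟩
        obtain ⟨k, rfl⟩ := Fin.exists_castSucc_eq.mpr (ne_of_lt hj)
        exact ⟨k, rfl⟩
      · rintro ⟨k, rfl⟩
        exact ⟨k.castSucc, Fin.castSucc_lt_last k, rfl⟩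
    have h1 : x (Fin.last s) • n (Fin.last s) ∈
        Ideal.span (x '' {j | j < Fin.last s}) • (⊤ : Submodule R N) := by
      have h2 : x (Fin.last s) • n (Fin.last s) =
          - ∑ j : Fin s, x j.castSucc • n j.castSucc := by
        rw [eq_neg_iff_add_eq_zero, add_comm]; exact hn
      rw [h2]
      refine Submodule.neg_mem _ (Submodule.sum_mem _ fun j _ => ?_)
      refine Submodule.smul_mem_smul (Submodule.subset_span ⟨j.castSucc, ?_, rfl⟩) trivial
      exact Fin.castSucc_lt_last j
    have h3 := hx (Fin.last s) _ h1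
    rw [himg] at h3
    obtain ⟨μ, hμ⟩ := exists_comb _ _ h3
    have hx' : ∀ (i : Fin s) (v : N),
        x i.castSucc • v ∈ Ideal.span ((fun k : Fin s => x k.castSucc) '' {j | j < i}) •
          (⊤ : Submodule R N) →
        v ∈ Ideal.span ((fun k : Fin s => x k.castSucc) '' {j | j < i}) •
          (⊤ : Submodule R N) := by
      intro i v hv
      have h4 : (fun k : Fin s => x k.castSucc) '' {j | j < i} = x '' {j | j < i.castSucc} := by
        ext z
        constructor
        · rintro ⟨j, hj, rfl⟩
          exact ⟨j.castSucc, by simpa using hj, rfl⟩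
        · rintro ⟨j, hj, rfl⟩
          have hj' : j < i.castSucc := hj
          have hne : j ≠ Fin.last s := ne_of_lt (hj'.trans (Fin.castSucc_lt_last i))
          obtain ⟨k, rfl⟩ := Fin.exists_castSucc_eq.mpr hne
          exact ⟨k, by simpa using hj', rfl⟩
      rw [h4] at hv ⊢
      exact hx i.castSucc v hv
    obtain ⟨ρ', h5, h6, h7⟩ := ih (fun k => x k.castSucc) hx'
      (fun j => n j.castSucc + x (Fin.last s) • μ j) (by
        simp only [smul_add, Finset.sum_add_distrib]
        have h8 : ∑ j : Fin s, x j.castSucc • x (Fin.last s) • μ j =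
            x (Fin.last s) • n (Fin.last s) := by
          rw [hμ, Finset.smul_sum]
          exact Finset.sum_congr rfl fun j _ => smul_comm _ _ _
        rw [h8]; exact hn)
    refine ⟨Fin.lastCases (Fin.lastCases 0 (fun k => μ k))
      (fun j => Fin.lastCases (- μ j) (fun k => ρ' j k)), ?_, ?_, ?_⟩
    · intro j k
      refine Fin.lastCases ?_ (fun j => ?_) j
      · refine Fin.lastCases ?_ (fun k => ?_) k
        · simp
        · simp
      · refine Fin.lastCases ?_ (fun k => ?_) k
        · simp
        · simp only [Fin.lastCases_castSucc]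
          exact h5 j k
    · intro j
      refine Fin.lastCases ?_ (fun j => ?_) j
      · simp
      · simp only [Fin.lastCases_castSucc]
        exact h6 j
    · intro j
      refine Fin.lastCases ?_ (fun j => ?_) j
      · rw [Fin.sum_univ_castSucc]
        simp only [Fin.lastCases_castSucc, Fin.lastCases_last, smul_zero, add_zero]
        exact hμ
      · rw [Fin.sum_univ_castSucc]
        simp only [Fin.lastCases_castSucc, Fin.lastCases_last, smul_neg]
        rw [← h7 j]
        abel

/-- The elementary form of weak regularity. -/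
lemma elem_of_isWeaklyRegular {s : ℕ} (x : Fin s → R)
    (h : RingTheory.Sequence.IsWeaklyRegular N (List.ofFn x)) :
    ∀ (i : Fin s) (v : N), x i • v ∈ Ideal.span (x '' {j | j < i}) • (⊤ : Submodule R N) →
      v ∈ Ideal.span (x '' {j | j < i}) • (⊤ : Submodule R N) := by
  intro i v hv
  have hi : (i : ℕ) < (List.ofFn x).length := by simp
  have h1 := h.regular_mod_prev i hi
  have h2 : Ideal.ofList ((List.ofFn x).take i) = Ideal.span (x '' {j | j < i}) := by
    refine congrArg Ideal.span (Set.ext fun z => ?_)
    constructor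
    · intro hz
      have hz' : z ∈ (List.ofFn x).take i := hz
      rw [List.mem_take_iff_getElem] at hz'
      obtain ⟨k, hk, rfl⟩ := hz'
      have hk' : k < (i : ℕ) := lt_of_lt_of_le hk (min_le_left _ _)
      refine ⟨⟨k, hk'.trans i.2⟩, ?_, ?_⟩
      · exact hk'
      · simp
    · rintro ⟨j, hj, rfl⟩
      show x j ∈ (List.ofFn x).take i
      rw [List.mem_take_iff_getElem]
      have hj' : (j : ℕ) < (i : ℕ) := hj
      refine ⟨j, ?_, ?_⟩
      · rw [lt_min_iff]
        exact ⟨hj', by simp⟩
      · simp
  rw [h2] at h1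
  have h3 : (List.ofFn x)[(i : ℕ)] = x i := by simp
  rw [h3] at h1
  have h4 := h1 (a₁ := (Submodule.Quotient.mk v : N ⧸ (Ideal.span (x '' {j | j < i}) •
    (⊤ : Submodule R N)))) (a₂ := 0) (by
      show x i • (Submodule.Quotient.mk v : N ⧸ (Ideal.span (x '' {j | j < i}) •
        (⊤ : Submodule R N))) = x i • 0
      rw [smul_zero, ← Submodule.Quotient.mk_smul, Submodule.Quotient.mk_eq_zero]
      exact hv)
  rwa [Submodule.Quotient.mk_eq_zero] at h4

end Pool.Agent.H929TP
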