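import Mathlib

set_option autoImplicit false

namespace Pool.Agent.H929TP

variable {R : Type*} [CommRing R]

/-- Selecting few generators modulo an ideal `X` from a finite family over a local ring. -/
lemma exists_small_subset [IsLocalRing R] {Λ : Type*} [Fintype Λ] [DecidableEq Λ]
    (y : Λ → R) (X : Ideal R) (s : Finset R) (hs : (↑s : Set R) ⊆ Ideal.span (Set.range y))
    (hs' : Ideal.span (Set.range y) ≤ Ideal.span (↑s : Set R) ⊔ X) :
    ∃ T : Finset Λ, T.card ≤ s.card ∧
      ∀ l, y l ∈ Ideal.span (y '' (↑T : Set Λ)) ⊔ X := by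
  classical
  set Q : Finset Λ → Prop := fun T => ∀ l, y l ∈ Ideal.span (y '' (↑T : Set Λ)) ⊔ X
    with hQ
  have huniv : Q Finset.univ := by
    intro l
    refine Submodule.mem_sup_left (Submodule.subset_span ⟨l, by simp, rfl⟩)
  obtain ⟨T, hT, hmin⟩ := Finset.exists_min_image (Finset.univ.filter Q) Finset.card
    ⟨Finset.univ, by simpa using huniv⟩
  have hTQ : Q T := (Finset.mem_filter.mp hT).2
  refine ⟨T, ?_, hTQ⟩
  -- matrices
  have hA : ∀ t : Λ, ∃ c : R → R, y t - ∑ u ∈ s, c u * u ∈ X := by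
    intro t
    have h1 : y t ∈ Ideal.span (↑s : Set R) ⊔ X :=
      hs' (Submodule.subset_span ⟨t, rfl⟩)
    obtain ⟨p, hp, q, hq, hpq⟩ := Submodule.mem_sup.mp h1
    have hp' : p ∈ Submodule.span R (id '' (↑s : Set R)) := by simpa using hp
    rw [Submodule.mem_span_image_finset_iff_exists_fun'] at hp'
    obtain ⟨c, hc⟩ := hp'
    refine ⟨c, ?_⟩
    have : y t - ∑ u ∈ s, c u * u = q := by
      rw [← hpq]
      have : p = ∑ u ∈ s, c u * u := by rw [← hc]; simp
      rw [this]; ring
    rw [this]; exact hq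
  have hB : ∀ u ∈ s, ∃ c : Λ → R, u - ∑ t ∈ T, c t * y t ∈ X := by
    intro u hu
    have h1 : u ∈ Ideal.span (y '' (↑T : Set Λ)) ⊔ X := by
      have h2 : Ideal.span (Set.range y) ≤ Ideal.span (y '' (↑T : Set Λ)) ⊔ X := by
        rw [Ideal.span_le]
        rintro _ ⟨l, rfl⟩
        exact hTQ l
      exact h2 (hs hu)
    obtain ⟨p, hp, q, hq, hpq⟩ := Submodule.mem_sup.mp h1
    have hp' : p ∈ Submodule.span R (y '' (↑T : Set Λ)) := hp
    rw [Submodule.mem_span_image_finset_iff_exists_fun'] at hp'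
    obtain ⟨c, hc⟩ := hp'
    refine ⟨c, ?_⟩
    have : u - ∑ t ∈ T, c t * y t = q := by
      rw [← hpq]
      have : p = ∑ t ∈ T, c t * y t := by rw [← hc]; simp
      rw [this]; ring
    rw [this]; exact hq
  choose a ha using hA
  choose! c hc using hB
  let A : Matrix T s R := Matrix.of fun t u => a t u
  let B : Matrix s T R := Matrix.of fun u t => c u t
  have hrel : ∀ t ∈ T, y t - ∑ t' ∈ T, (∑ u ∈ s, a t u * c u t') * y t' ∈ X := by
    intro t _
    have h1 := ha t
    have h2 : ∑ u ∈ s, a t u * (u - ∑ t' ∈ T, c u t' * y t') ∈ X :=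
      Submodule.sum_mem _ fun u hu => Ideal.mul_mem_left _ _ (hc u hu)
    have h3 := Submodule.add_mem _ h1 h2
    have h4 : y t - ∑ u ∈ s, a t u * u + ∑ u ∈ s, a t u * (u - ∑ t' ∈ T, c u t' * y t')
        = y t - ∑ t' ∈ T, (∑ u ∈ s, a t u * c u t') * y t' := by
      have h5 : ∑ t' ∈ T, (∑ u ∈ s, a t u * c u t') * y t'
          = ∑ u ∈ s, a t u * ∑ t' ∈ T, c u t' * y t' := by
        simp only [Finset.sum_mul, Finset.mul_sum]
        rw [Finset.sum_comm]
        refine Finset.sum_congr rfl fun u _ => Finset.sum_congr rfl fun t' _ => by ring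
      rw [h5]
      simp only [mul_sub, Finset.sum_sub_distrib]
      ring
    rwa [h4] at h3
  have hunit : ∀ t ∈ T, ∀ t₀ ∈ T,
      ((if t = t₀ then (1 : R) else 0) - ∑ u ∈ s, a t u * c u t₀) ∈
        IsLocalRing.maximalIdeal R := by
    intro t ht t₀ ht₀
    by_contra hcon
    have hu := IsLocalRing.notMem_maximalIdeal.mp hcon
    set w : R := (if t = t₀ then (1 : R) else 0) - ∑ u ∈ s, a t u * c u t₀ with hw
    have h1 := hrel t ht
    -- isolate t₀
    have h2 : w * y t₀ + ∑ t' ∈ T.erase t₀,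
        ((if t = t' then (1 : R) else 0) - ∑ u ∈ s, a t u * c u t') * y t' ∈ X := by
      have h3 : y t - ∑ t' ∈ T, (∑ u ∈ s, a t u * c u t') * y t' =
          ∑ t' ∈ T, ((if t = t' then (1 : R) else 0) - ∑ u ∈ s, a t u * c u t') * y t' := by
        simp only [sub_mul, Finset.sum_sub_distrib, ite_mul, one_mul, zero_mul]
        rw [Finset.sum_ite_eq, if_pos ht]
      rw [h3, ← Finset.add_sum_erase _ _ ht₀] at h1
      exact h1
    obtain ⟨v, hv⟩ := hu.exists_left_inv
    have h4 : y t₀ ∈ Ideal.span (y '' (↑(T.erase t₀) : Set Λ)) ⊔ X := by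
      have h5 : ∑ t' ∈ T.erase t₀,
          ((if t = t' then (1 : R) else 0) - ∑ u ∈ s, a t u * c u t') * y t' ∈
            Ideal.span (y '' (↑(T.erase t₀) : Set Λ)) :=
        Submodule.sum_mem _ fun t' ht' =>
          Ideal.mul_mem_left _ _ (Submodule.subset_span ⟨t', ht', rfl⟩)
      have h6 : y t₀ = v * (w * y t₀ + ∑ t' ∈ T.erase t₀,
        ((if t = t' then (1 : R) else 0) - ∑ u ∈ s, a t u * c u t') * y t')
          - v * ∑ t' ∈ T.erase t₀,
        ((if t = t' then (1 : R) else 0) - ∑ u ∈ s, a t u * c u t') * y t' := by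
        rw [mul_add, ← mul_assoc, hv]; ring
      rw [h6]
      refine Submodule.sub_mem _ (Submodule.mem_sup_right (Ideal.mul_mem_left _ _ h2))
        (Submodule.mem_sup_left (Ideal.mul_mem_left _ _ h5))
    have h7 : Q (T.erase t₀) := by
      intro l
      have h8 : Ideal.span (y '' (↑T : Set Λ)) ⊔ X ≤
          Ideal.span (y '' (↑(T.erase t₀) : Set Λ)) ⊔ X := by
        refine sup_le ?_ le_sup_right
        rw [Ideal.span_le]
        rintro _ ⟨t', ht', rfl⟩
        by_cases h9 : t' = t₀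
        · subst h9; exact h4
        · refine Submodule.mem_sup_left (Submodule.subset_span ⟨t', ?_, rfl⟩)
          simpa [h9] using ht'
      exact h8 (hTQ l)
    have h10 := hmin (T.erase t₀) (by simpa using h7)
    have h11 := Finset.card_erase_lt_of_mem ht₀
    omega
  -- rank argument
  let k := IsLocalRing.ResidueField R
  let r : R →+* k := IsLocalRing.residue R
  have hAB : (A.map r) * (B.map r) = (1 : Matrix T T k) := by
    ext t t₀
    have h1 := hunit t t.2 t₀ t₀.2
    have h2 : r ((if (t : Λ) = t₀ then (1 : R) else 0) - ∑ u ∈ s, a t u * c u t₀) = 0 :=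
      (IsLocalRing.residue_eq_zero_iff _).mpr h1
    rw [map_sub, sub_eq_zero] at h2
    rw [Matrix.mul_apply]
    simp only [Matrix.map_apply]
    have h3 : ∑ j : s, r (A t j) * r (B j t₀) = r (∑ u ∈ s, a t u * c u t₀) := by
      rw [map_sum, ← Finset.sum_coe_sort s]
      refine Finset.sum_congr rfl fun u _ => ?_
      rw [map_mul]; rfl
    rw [h3, ← h2, Matrix.one_apply]
    by_cases h4 : t = t₀
    · simp [h4]
    · have : (t : Λ) ≠ t₀ := fun h => h4 (Subtype.ext h)
      simp [h4, this]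
  have h1 : (1 : Matrix T T k).rank ≤ Fintype.card s := by
    rw [← hAB]
    exact (Matrix.rank_mul_le_left _ _).trans (Matrix.rank_le_card_width _)
  rw [Matrix.rank_one] at h1
  simpa using h1

end Pool.Agent.H929TP
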