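import Mathlib
import Pool.Graph.R_seed8.TH211.TP.Core
import Pool.Agent.H929TP.Koszul
import Pool.Agent.H929TP.Small

set_option autoImplicit false

namespace Pool.Agent.H929TP

open scoped TensorProduct
open Pool.Agent.TH211.TP

section

variable {R : Type*} [CommRing R] {M : Type*} [AddCommGroup M] [Module R M]

/-- The Koszul step.  The coordinates `y l`, `l : Fin n × κ`, of finitely many relations are
written as combinations of the `y t`, `t ∈ T`, plus `∑ j, x j * y' j l`.  If `x` is a regular
sequence on the tensor power, the remainder at `l₀` lies in `(x) I`. -/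
lemma remainder_mem {n : ℕ} (m : Fin n → M)
    (hm : Submodule.span R (Set.range m) = ⊤) {κ : Type*} [Fintype κ] [DecidableEq κ]
    {s : ℕ} (x : Fin s → R) (e : ℕ)
    (hreg : ∀ (i : Fin s) (v : ⨂[R]^e M),
      x i • v ∈ Ideal.span (x '' {j | j < i}) • (⊤ : Submodule R (⨂[R]^e M)) →
      v ∈ Ideal.span (x '' {j | j < i}) • (⊤ : Submodule R (⨂[R]^e M)))
    (y : Fin n × κ → R) (hrel : ∀ k, ∑ i, y (i, k) • m i = 0)
    (T : Finset (Fin n × κ)) (c : Fin n × κ → (Fin n × κ → R))
    (y' : Fin s → (Fin n × κ → R))
    (hcy : ∀ l, y l = ∑ t ∈ T, c l t * y t + ∑ j, x j * y' j l)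
    (l₀ : Fin n × κ) (hl₀T : l₀ ∉ T)
    (S : Finset (Fin n × κ)) (hTS : insert l₀ T ⊆ S) (hScard : S.card = e) :
    ∑ j, x j * y' j l₀ ∈ Ideal.span (Set.range x) • relIdeal (R := R) m := by
  classical
  set I : Ideal R := relIdeal (R := R) m with hI
  obtain ⟨φ, hφ⟩ := exists_coord (R := R) m hm
  let σ : Fin e ≃ S := (S.equivFinOfCardEq hScard).symm
  have hl₀S : l₀ ∈ S := hTS (Finset.mem_insert_self _ _)
  let a₀ : Fin e := σ.symm ⟨l₀, hl₀S⟩
  have ha₀ : σ a₀ = ⟨l₀, hl₀S⟩ := σ.apply_symm_apply _
  -- coefficient rows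
  let u : Fin n × κ → (Fin n × κ → R) := fun s' l =>
    if s' ∈ T then (if l ∈ T then (if s' = l then 1 else 0) else c l s')
    else (if s' = l then 1 else 0)
  let w : Fin s → (Fin n × κ → R) := fun j l => if l ∈ T then 0 else y' j l
  let toV : (Fin n × κ → R) → (κ → M) := fun a k => ∑ i, a (i, k) • m i
  have htoV_add : ∀ a b, toV (a + b) = toV a + toV b := by
    intro a b; ext k; simp [toV, add_smul, Finset.sum_add_distrib]
  have htoV_smul : ∀ (r : R) a, toV (r • a) = r • toV a := by
    intro r a; ext k; simp [toV, Finset.smul_sum, smul_smul]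
  let L : (Fin n × κ → R) →ₗ[R] (κ → M) :=
    { toFun := toV, map_add' := htoV_add, map_smul' := htoV_smul }
  let U : Fin e → κ → M := fun a => L (u (σ a))
  let kk : Fin e → κ := fun i => (σ i).1.2
  let ψ : (⨂[R]^e M) →ₗ[R] (R ⧸ I) := evalMap (fun i => φ (σ i).1.1)
  let nn : Fin s → ⨂[R]^e M := fun j => altMap kk (Function.update U a₀ (L (w j)))
  -- the basic relation
  have hbasic : ∑ t ∈ T, y t • L (u t) + ∑ j, x j • L (w j) = 0 := by
    have h1 : ∑ t ∈ T, y t • L (u t) + ∑ j, x j • L (w j) =
        L (∑ t ∈ T, y t • u t + ∑ j, x j • w j) := by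
      rw [map_add, map_sum, map_sum]
      simp only [map_smul]
    rw [h1]
    have h2 : ∑ t ∈ T, y t • u t + ∑ j, x j • w j = y := by
      ext l
      simp only [Pi.add_apply, Finset.sum_apply, Pi.smul_apply, smul_eq_mul]
      by_cases hl : l ∈ T
      · have h3 : ∑ t ∈ T, y t * u t l = y l := by
          rw [Finset.sum_eq_single l]
          · simp [u, hl]
          · intro t ht htl
            simp [u, ht, hl, htl]
          · intro h; exact absurd hl h
        have h4 : ∑ j, x j * w j l = 0 :=
          Finset.sum_eq_zero fun j _ => by simp [w, hl]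
        rw [h3, h4, add_zero]
      · have h3 : ∑ t ∈ T, y t * u t l = ∑ t ∈ T, c l t * y t := by
          refine Finset.sum_congr rfl fun t ht => ?_
          simp [u, ht, hl, mul_comm]
        have h4 : ∑ j, x j * w j l = ∑ j, x j * y' j l :=
          Finset.sum_congr rfl fun j _ => by simp [w, hl]
        rw [h3, h4, ← hcy l]
    rw [h2]
    ext k
    exact hrel k
  -- the Koszul relation
  have hsum : ∑ j, x j • nn j = 0 := by
    have h1 : ∑ j, x j • nn j =
        altMap kk (Function.update U a₀ (∑ j, x j • L (w j))) := by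
      rw [AlternatingMap.map_update_sum]
      refine Finset.sum_congr rfl fun j _ => ?_
      rw [AlternatingMap.map_update_smul]
    have h2 : ∑ j, x j • L (w j) = ∑ t ∈ T, (- y t) • L (u t) := by
      have h3 : ∑ t ∈ T, (- y t) • L (u t) = - ∑ t ∈ T, y t • L (u t) := by
        rw [← Finset.sum_neg_distrib]
        exact Finset.sum_congr rfl fun t _ => by rw [neg_smul]
      rw [h3, eq_neg_iff_add_eq_zero, add_comm]
      exact hbasic
    rw [h1, h2, AlternatingMap.map_update_sum]
    refine Finset.sum_eq_zero fun t ht => ?_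
    rw [AlternatingMap.map_update_smul]
    have htS : t ∈ S := hTS (Finset.mem_insert_of_mem ht)
    have hne : σ.symm ⟨t, htS⟩ ≠ a₀ := by
      intro h
      have h3 := σ.symm.injective h
      have h4 : t = l₀ := congrArg Subtype.val h3
      exact hl₀T (h4 ▸ ht)
    have h5 : altMap (R := R) kk (Function.update U a₀ (L (u t))) = 0 := by
      refine AlternatingMap.map_eq_zero_of_eq _ _ (i := a₀) (j := σ.symm ⟨t, htS⟩) ?_ hne.symm
      rw [Function.update_self, Function.update_of_ne hne]
      show L (u t) = L (u (σ (σ.symm ⟨t, htS⟩)))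
      rw [σ.apply_symm_apply]
    rw [h5, smul_zero]
  obtain ⟨ρ, hρ1, hρ2, hρ3⟩ := koszul s x hreg nn hsum
  -- coordinates
  have hψ : ∀ j, ψ (nn j) = Ideal.Quotient.mk I (y' j l₀) := by
    intro j
    have h1 : ψ (nn j) = Matrix.det (Matrix.of fun a i =>
        φ (σ i).1.1 ((Function.update U a₀ (L (w j))) a (kk i))) :=
      evalMap_altMap (R := R) (fun i => φ (σ i).1.1) kk (Function.update U a₀ (L (w j)))
    rw [h1]
    let v : S → S → R := fun s' l => if (s' : Fin n × κ) = l₀ then w j l else u s' l
    have h2 : (Matrix.of fun a i =>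
        φ (σ i).1.1 ((Function.update U a₀ (L (w j))) a (kk i))) =
        ((Matrix.of v).map (Ideal.Quotient.mk I)).submatrix σ σ := by
      ext a i
      simp only [Matrix.of_apply, Matrix.submatrix_apply, Matrix.map_apply]
      by_cases ha : a = a₀
      · subst ha
        rw [Function.update_self]
        have h3 : (σ a₀ : Fin n × κ) = l₀ := by rw [ha₀]
        simp only [v, h3, if_true]
        exact hφ (fun j' => w j (j', (σ i).1.2)) (σ i).1.1
      · rw [Function.update_of_ne ha]
        have h3 : (σ a : Fin n × κ) ≠ l₀ := by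
          intro h
          apply ha
          have h4 : σ a = σ a₀ := by rw [ha₀]; exact Subtype.ext h
          exact σ.injective h4
        simp only [v, if_neg h3]
        exact hφ (fun j' => u (σ a) (j', (σ i).1.2)) (σ i).1.1
    rw [h2, Matrix.det_submatrix_equiv_self]
    have h3 := RingHom.map_det (Ideal.Quotient.mk I) (Matrix.of v)
    rw [RingHom.mapMatrix_apply] at h3
    rw [← h3]
    congr 1
    rw [det_of_graded (fun s' : S => if (s' : Fin n × κ) ∈ T then 0 else
      if (s' : Fin n × κ) = l₀ then 1 else 2)]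
    · simp only [Matrix.of_apply]
      rw [Finset.prod_eq_single (⟨l₀, hl₀S⟩ : S)]
      · simp [v, w, hl₀T]
      · rintro ⟨s', hs⟩ _ hs'
        have hs'' : s' ≠ l₀ := fun h => hs' (Subtype.ext h)
        by_cases h1 : s' ∈ T
        · simp [v, u, h1, hs'']
        · simp [v, u, h1, hs'']
      · intro h; exact absurd (Finset.mem_univ _) h
    · rintro ⟨s', hs⟩ ⟨l, hl⟩ hle hne
      have hne' : s' ≠ l := fun h => hne (Subtype.ext h)
      simp only [Matrix.of_apply]
      simp only at hle
      by_cases h1 : s' ∈ T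
      · have hs'' : s' ≠ l₀ := fun h => hl₀T (h ▸ h1)
        by_cases h2 : l ∈ T
        · simp [v, u, h1, h2, hne', hs'']
        · exfalso
          rw [if_pos h1, if_neg h2] at hle
          split_ifs at hle <;> omega
      · by_cases h3 : s' = l₀
        · by_cases h2 : l ∈ T
          · simp [v, w, h3, h2]
          · exfalso
            have h4 : l ≠ l₀ := fun h => hne' (h3.trans h.symm)
            rw [if_neg h1, if_pos h3, if_neg h2, if_neg h4] at hle
            omega
        · simp only [v, u, if_neg h1, if_neg h3, if_neg hne']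
  -- lift the Koszul coefficients
  have hlift : ∀ q : R ⧸ I, ∃ r : R, Ideal.Quotient.mk I r = q := Ideal.Quotient.mk_surjective
  choose lift hlift' using hlift
  let r : Fin s → Fin s → R := fun j k =>
    if j < k then lift (ψ (ρ j k)) else if k < j then - lift (ψ (ρ k j)) else 0
  have hr : ∀ j k, Ideal.Quotient.mk I (r j k) = ψ (ρ j k) := by
    intro j k
    rcases lt_trichotomy j k with h | h | h
    · simp only [r, if_pos h, hlift']
    · subst h
      simp only [r, lt_irrefl, if_false, hρ2, map_zero]
    · simp only [r, if_neg h.le.not_gt, if_pos h, map_neg, hlift']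
      rw [hρ1 j k, map_neg]
  have hranti : ∀ j k, r j k = - r k j := by
    intro j k
    rcases lt_trichotomy j k with h | h | h
    · simp only [r, if_pos h, if_neg h.le.not_gt, neg_neg]
    · subst h; simp [r]
    · simp only [r, if_pos h, if_neg h.le.not_gt]
  have hmem : ∀ j, y' j l₀ - ∑ k, x k * r j k ∈ I := by
    intro j
    rw [← Ideal.Quotient.eq_zero_iff_mem, map_sub, sub_eq_zero, ← hψ j, hρ3 j, map_sum, map_sum]
    refine Finset.sum_congr rfl fun k _ => ?_
    rw [map_smul, map_mul, hr, Algebra.smul_def]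
    rfl
  have hzero : ∑ j, x j * ∑ k, x k * r j k = 0 := by
    have h1 : ∑ j, x j * ∑ k, x k * r j k = ∑ j, ∑ k, x j * x k * r j k := by
      refine Finset.sum_congr rfl fun j _ => ?_
      rw [Finset.mul_sum]
      exact Finset.sum_congr rfl fun k _ => by ring
    rw [h1]
    -- involution pairing
    rw [← Finset.sum_product' (f := fun j k => x j * x k * r j k)]
    refine Finset.sum_involution (fun p _ => (p.2, p.1)) ?_ ?_ ?_ ?_
    · rintro ⟨j, k⟩ _
      simp only
      rw [hranti j k]; ring
    · rintro ⟨j, k⟩ _ hne heq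
      apply hne
      have h2 : j = k := by
        have := congrArg Prod.snd heq
        simpa using this
      subst h2
      simp [r]
    · rintro ⟨j, k⟩ _; simp
    · rintro ⟨j, k⟩ _; rfl
  have hfin : ∑ j, x j * y' j l₀ = ∑ j, x j * (y' j l₀ - ∑ k, x k * r j k) := by
    simp only [mul_sub, Finset.sum_sub_distrib]
    rw [hzero, sub_zero]
  rw [hfin]
  refine Submodule.sum_mem _ fun j _ => ?_
  exact Submodule.smul_mem_smul (Submodule.subset_span ⟨j, rfl⟩) (hmem j)

end

end Pool.Agent.H929TP
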