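import Mathlib

set_option autoImplicit false

namespace Pool.Agent.H929TP

open CategoryTheory Abelian Limits RingTheory.Sequence

universe u

section

variable {R : Type u} [CommRing R] [IsLocalRing R] [IsNoetherianRing R]

/-- If `N` has a regular sequence of length `s + 1` in the maximal ideal and `x` is regular on
`N`, then `N/xN` has a regular sequence of length `s` in the maximal ideal. -/
lemma quot_step (N : Type u) [AddCommGroup N] [Module R N] [Module.Finite R N] [Nontrivial N]
    (s : ℕ) (h : ∃ rs : List R, rs.length = s + 1 ∧ (∀ r ∈ rs, r ∈ IsLocalRing.maximalIdeal R) ∧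
      IsRegular N rs) (x : R) (hxm : x ∈ IsLocalRing.maximalIdeal R) (hx : IsSMulRegular N x) :
    ∃ rs : List R, rs.length = s ∧ (∀ r ∈ rs, r ∈ IsLocalRing.maximalIdeal R) ∧
      IsRegular (QuotSMulTop x N) rs := by
  have hlt : IsLocalRing.maximalIdeal R • (⊤ : Submodule R N) < ⊤ := by
    rw [lt_top_iff_ne_top]
    intro h
    have := Submodule.eq_bot_of_le_smul_of_le_jacobson_bot (IsLocalRing.maximalIdeal R)
      (⊤ : Submodule R N) (Module.Finite.fg_top) h.ge
      (IsLocalRing.jacobson_eq_maximalIdeal ⊥ bot_ne_top).ge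
    exact (bot_ne_top (α := Submodule R N)) this.symm
  let K : ModuleCat.{u} R := ModuleCat.of R (R ⧸ IsLocalRing.maximalIdeal R)
  have hK : Module.support R K = PrimeSpectrum.zeroLocus (IsLocalRing.maximalIdeal R) := by
    show Module.support R (R ⧸ IsLocalRing.maximalIdeal R) = _
    rw [Module.support_eq_zeroLocus, Ideal.annihilator_quotient]
  have hKn : Nontrivial K := by
    show Nontrivial (R ⧸ IsLocalRing.maximalIdeal R)
    exact Ideal.Quotient.nontrivial_iff.mpr (IsLocalRing.maximalIdeal.isMaximal R).ne_top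
  have hKf : Module.Finite R K := by
    show Module.Finite R (R ⧸ IsLocalRing.maximalIdeal R)
    infer_instance
  obtain ⟨rs, hlen, hmem, hreg⟩ := h
  have h1 : ∀ i < s + 1, Subsingleton (Ext K (ModuleCat.of R N) i) := by
    rw [← hlen]
    exact ModuleCat.subsingleton_ext_of_exists_isRegular (IsLocalRing.maximalIdeal R) K
      hK.subset (ModuleCat.of R N) hlt rs hmem hreg
  have hQfin : Module.Finite R (QuotSMulTop x N) := inferInstance
  have hlt' : IsLocalRing.maximalIdeal R • (⊤ : Submodule R (QuotSMulTop x N)) < ⊤ := by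
    have hQn : Nontrivial (QuotSMulTop x N) := by
      rw [Submodule.Quotient.nontrivial_iff]
      intro htop
      have h2 : (⊤ : Submodule R N) ≤ IsLocalRing.maximalIdeal R • ⊤ := by
        refine htop.ge.trans ?_
        rw [← Submodule.ideal_span_singleton_smul]
        exact Submodule.smul_mono ((Ideal.span_singleton_le_iff_mem _).mpr hxm) le_rfl
      exact hlt.ne (top_le_iff.mp h2)
    rw [lt_top_iff_ne_top]
    intro h
    have := Submodule.eq_bot_of_le_smul_of_le_jacobson_bot (IsLocalRing.maximalIdeal R)
      (⊤ : Submodule R (QuotSMulTop x N)) (Module.Finite.fg_top) h.ge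
      (IsLocalRing.jacobson_eq_maximalIdeal ⊥ bot_ne_top).ge
    exact (bot_ne_top (α := Submodule R (QuotSMulTop x N))) this.symm
  refine ModuleCat.exists_isRegular_of_exists_subsingleton_ext (IsLocalRing.maximalIdeal R) s
    (ModuleCat.of R (QuotSMulTop x N)) hlt' K hK ?_
  intro i hi
  have zero1 := AddCommGrpCat.isZero_of_iff_subsingleton.mpr (h1 i (by omega))
  have zero2 := AddCommGrpCat.isZero_of_iff_subsingleton.mpr (h1 (i + 1) (by omega))
  exact AddCommGrpCat.subsingleton_of_isZero <| ShortComplex.Exact.isZero_of_both_zeros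
    ((Ext.covariant_sequence_exact₃' K
      (IsSMulRegular.smulShortComplex_shortExact (M := ModuleCat.of R N) hx)) i (i + 1) rfl)
    (zero1.eq_zero_of_src _) (zero2.eq_zero_of_tgt _)

end

end Pool.Agent.H929TP
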