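import Mathlib
import Pool.Agent.H929TP.Depth

set_option autoImplicit false

namespace Pool.Agent.H929TP

open RingTheory.Sequence

universe u

section

variable {R : Type u} [CommRing R] [IsLocalRing R]

/-- Avoiding finitely many primes by a generic combination of given elements, over a local ring
with infinite residue field. -/
lemma exists_avoid [Infinite (IsLocalRing.ResidueField R)] {Λ : Type} [Fintype Λ]
    (z : Λ → R) (k : Λ → ℕ) (hk : Function.Injective k) (S : Set (Ideal R)) (hS : S.Finite)
    (hprime : ∀ P ∈ S, P.IsPrime) (hz : ∀ P ∈ S, ∃ l, z l ∉ P) :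
    ∃ a : R, ∀ P ∈ S, ∑ l, a ^ k l * z l ∉ P := by
  classical
  let σ : IsLocalRing.ResidueField R → R := Function.surjInv IsLocalRing.residue_surjective
  have hσ : ∀ θ, IsLocalRing.residue R (σ θ) = θ := Function.surjInv_eq _
  let Bad : Ideal R → Set (IsLocalRing.ResidueField R) := fun P =>
    {θ | ∑ l, (σ θ) ^ k l * z l ∈ P}
  have hfin : ∀ P ∈ S, (Bad P).Finite := by
    intro P hP
    have hPp := hprime P hP
    let f : Polynomial (R ⧸ P) := ∑ l, Polynomial.C (Ideal.Quotient.mk P (z l)) *
      Polynomial.X ^ k l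
    have hf : f ≠ 0 := by
      obtain ⟨l₀, hl₀⟩ := hz P hP
      intro h0
      have h1 : f.coeff (k l₀) = Ideal.Quotient.mk P (z l₀) := by
        simp only [f, Polynomial.finsetSum_coeff, Polynomial.coeff_C_mul_X_pow]
        rw [Finset.sum_eq_single l₀]
        · simp
        · intro l _ hl
          rw [if_neg]
          intro h2
          exact hl (hk h2).symm
        · intro h; exact absurd (Finset.mem_univ _) h
      rw [h0, Polynomial.coeff_zero] at h1
      exact hl₀ (Ideal.Quotient.eq_zero_iff_mem.mp h1.symm)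
    have hinj : Function.Injective (fun θ => Ideal.Quotient.mk P (σ θ)) := by
      intro θ θ' h
      have h1 : σ θ - σ θ' ∈ P := Ideal.Quotient.eq.mp h
      have h2 : σ θ - σ θ' ∈ IsLocalRing.maximalIdeal R :=
        IsLocalRing.le_maximalIdeal hPp.ne_top h1
      have h3 : IsLocalRing.residue R (σ θ - σ θ') = 0 :=
        (IsLocalRing.residue_eq_zero_iff _).mpr h2
      rw [map_sub, hσ, hσ, sub_eq_zero] at h3
      exact h3
    have hroots : (f.rootSet (R ⧸ P)).Finite := Polynomial.rootSet_finite f _
    refine Set.Finite.subset (hroots.preimage hinj.injOn) ?_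
    intro θ hθ
    have h1 : ∑ l, (σ θ) ^ k l * z l ∈ P := hθ
    show Ideal.Quotient.mk P (σ θ) ∈ f.rootSet (R ⧸ P)
    rw [Polynomial.mem_rootSet]
    refine ⟨hf, ?_⟩
    have h2 : Polynomial.aeval (Ideal.Quotient.mk P (σ θ)) f =
        Ideal.Quotient.mk P (∑ l, (σ θ) ^ k l * z l) := by
      simp only [f, map_sum, map_mul, map_pow, Polynomial.aeval_C, Polynomial.aeval_X]
      refine Finset.sum_congr rfl fun l _ => ?_
      rw [mul_comm]
      rfl
    rw [h2]
    exact Ideal.Quotient.eq_zero_iff_mem.mpr h1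
  have hU : (⋃ P ∈ S, Bad P).Finite := hS.biUnion hfin
  obtain ⟨θ, hθ⟩ := hU.infinite_compl.nonempty
  refine ⟨σ θ, fun P hP hmem => hθ ?_⟩
  exact Set.mem_biUnion hP hmem

variable [IsNoetherianRing R]

/-- Generic regular sequences inside an ideal with given generators. -/
lemma exists_generic [Infinite (IsLocalRing.ResidueField R)] (t : ℕ) : ∀ (s : ℕ)
    (N : Type u) [AddCommGroup N] [Module R N] [Module.Finite R N] [Nontrivial N]
    (z : Fin s ⊕ Fin t → R) (_ : ∀ i, z i ∈ IsLocalRing.maximalIdeal R)
    (_ : ∀ P : Ideal R, P.IsPrime → Module.annihilator R N ≤ P → (∀ i, z i ∈ P) →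
      P = IsLocalRing.maximalIdeal R)
    (_ : ∃ rs : List R, rs.length = s ∧ (∀ r ∈ rs, r ∈ IsLocalRing.maximalIdeal R) ∧
      IsRegular N rs),
    ∃ (x : Fin s → R) (w : Fin t → R), (∀ i, x i ∈ IsLocalRing.maximalIdeal R) ∧
      (∀ i, w i ∈ IsLocalRing.maximalIdeal R) ∧
      Ideal.span (Set.range x) ⊔ Ideal.span (Set.range w) = Ideal.span (Set.range z) ∧
      IsWeaklyRegular N (List.ofFn x) := by
  intro s
  induction s with
  | zero =>
    intro N _ _ _ _ z hz _ _
    refine ⟨fun i => i.elim0, fun i => z (Sum.inr i), fun i => i.elim0, fun i => hz _, ?_, ?_⟩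
    · apply le_antisymm
      · refine sup_le ?_ ?_
        · rw [Ideal.span_le]; rintro _ ⟨i, _⟩; exact i.elim0
        · rw [Ideal.span_le]; rintro _ ⟨i, rfl⟩
          exact Ideal.subset_span ⟨Sum.inr i, rfl⟩
      · rw [Ideal.span_le]
        rintro _ ⟨i | i, rfl⟩
        · exact i.elim0
        · exact Submodule.mem_sup_right (Ideal.subset_span ⟨i, rfl⟩)
    · simp
  | succ s ih =>
    intro N _ _ _ _ z hz hprim hreg
    -- associated primes
    have hAssP : ∀ P ∈ associatedPrimes R N, P.IsPrime := fun P hP => hP.isPrime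
    have hAssne : ∀ P ∈ associatedPrimes R N, P ≠ IsLocalRing.maximalIdeal R := by
      intro P hP hPm
      obtain ⟨rs, hlen, hmem, hr⟩ := hreg
      match rs, hlen, hmem, hr with
      | r :: rs', _, hmem, hr =>
        have h1 : IsSMulRegular N r := ((isRegular_cons_iff N r rs').mp hr).1
        have h2 : r ∈ P := by rw [hPm]; exact hmem r List.mem_cons_self
        have h3 : r ∈ ⋃ p ∈ associatedPrimes R N, (p : Set R) := Set.mem_biUnion hP h2
        rw [biUnion_associatedPrimes_eq_compl_regular] at h3
        exact h3 h1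
    have hzP : ∀ P ∈ associatedPrimes R N, ∃ l, z l ∉ P := by
      intro P hP
      by_contra hcon
      push Not at hcon
      exact hAssne P hP (hprim P (hAssP P hP)
        (Submodule.annihilator_top.symm.le.trans (IsAssociatedPrime.annihilator_le hP)) hcon)
    let k : Fin (s + 1) ⊕ Fin t → ℕ := Sum.elim (fun i => (i : ℕ)) (fun i => s + 1 + (i : ℕ))
    have hk : Function.Injective k := by
      rintro (i | i) (j | j) h
      · have : (i : ℕ) = j := h
        rw [Fin.ext this]
      · have h1 : (i : ℕ) = s + 1 + j := h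
        have := i.2
        omega
      · have h1 : s + 1 + (i : ℕ) = j := h
        have := j.2
        omega
      · have h1 : s + 1 + (i : ℕ) = s + 1 + j := h
        rw [Fin.ext (by omega : (i : ℕ) = j)]
    obtain ⟨a, ha⟩ := exists_avoid z k hk (associatedPrimes R N) (associatedPrimes.finite R N)
      hAssP hzP
    set x₀ : R := ∑ l, a ^ k l * z l with hx₀
    have hx₀m : x₀ ∈ IsLocalRing.maximalIdeal R :=
      Submodule.sum_mem _ fun l _ => Ideal.mul_mem_left _ _ (hz l)
    have hx₀reg : IsSMulRegular N x₀ := by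
      by_contra hcon
      have h1 : x₀ ∈ {r : R | IsSMulRegular N r}ᶜ := hcon
      rw [← biUnion_associatedPrimes_eq_compl_regular] at h1
      simp only [Set.mem_iUnion] at h1
      obtain ⟨P, hP, hmem⟩ := h1
      exact ha P hP hmem
    let z' : Fin s ⊕ Fin t → R := fun l => z (Sum.map Fin.succ id l)
    -- `z (inl 0)` is a combination of `x₀` and `z'`
    have hsplit : x₀ = z (Sum.inl 0) + ∑ l : Fin s ⊕ Fin t,
        a ^ k (Sum.map Fin.succ id l) * z' l := by
      rw [hx₀, Fintype.sum_sum_type, Fintype.sum_sum_type, Fin.sum_univ_succ]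
      simp [k, z', add_assoc]
    have hspan : Ideal.span {x₀} ⊔ Ideal.span (Set.range z') = Ideal.span (Set.range z) := by
      apply le_antisymm
      · refine sup_le ?_ ?_
        · rw [Ideal.span_le, Set.singleton_subset_iff]
          exact Submodule.sum_mem _ fun l _ =>
            Ideal.mul_mem_left _ _ (Ideal.subset_span ⟨l, rfl⟩)
        · rw [Ideal.span_le]; rintro _ ⟨l, rfl⟩
          exact Ideal.subset_span ⟨_, rfl⟩
      · rw [Ideal.span_le]
        have h0 : z (Sum.inl 0) ∈ Ideal.span {x₀} ⊔ Ideal.span (Set.range z') := by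
          have h1 : z (Sum.inl 0) = x₀ - ∑ l : Fin s ⊕ Fin t,
              a ^ k (Sum.map Fin.succ id l) * z' l := by rw [hsplit]; ring
          rw [h1]
          exact Submodule.sub_mem _
            (Submodule.mem_sup_left (Ideal.mem_span_singleton_self _))
            (Submodule.mem_sup_right (Submodule.sum_mem _ fun l _ =>
              Ideal.mul_mem_left _ _ (Ideal.subset_span ⟨l, rfl⟩)))
        rintro _ ⟨i | i, rfl⟩
        · refine Fin.cases ?_ (fun i => ?_) i
          · exact h0
          · exact Submodule.mem_sup_right (Ideal.subset_span ⟨Sum.inl i, rfl⟩)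
        · exact Submodule.mem_sup_right (Ideal.subset_span ⟨Sum.inr i, rfl⟩)
    obtain ⟨rs₁, hlen₁, hmem₁, hreg₁⟩ := quot_step N s hreg x₀ hx₀m hx₀reg
    have hNn : Nontrivial (QuotSMulTop x₀ N) := by
      by_contra hcon
      rw [not_nontrivial_iff_subsingleton] at hcon
      exact hreg₁.top_ne_smul (Subsingleton.elim _ _)
    have hx₀ann : x₀ ∈ Module.annihilator R (QuotSMulTop x₀ N) := by
      rw [Module.mem_annihilator]
      intro v
      obtain ⟨v', rfl⟩ := Submodule.Quotient.mk_surjective _ v
      rw [← Submodule.Quotient.mk_smul, Submodule.Quotient.mk_eq_zero]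
      exact ⟨v', trivial, rfl⟩
    have hannle : Module.annihilator R N ≤ Module.annihilator R (QuotSMulTop x₀ N) :=
      LinearMap.annihilator_le_of_surjective _ (Submodule.mkQ_surjective _)
    obtain ⟨x, w, hxm, hwm, hsp, hwr⟩ := ih (QuotSMulTop x₀ N) z' (fun i => hz _) (by
      intro P hPp hPann hPz
      refine hprim P hPp (hannle.trans hPann) ?_
      have h1 : Ideal.span (Set.range z) ≤ P := by
        rw [← hspan]
        refine sup_le ?_ ?_
        · rw [Ideal.span_le, Set.singleton_subset_iff]
          exact hPann hx₀ann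
        · rw [Ideal.span_le]; rintro _ ⟨l, rfl⟩; exact hPz l
      exact fun i => h1 (Ideal.subset_span ⟨i, rfl⟩)) ⟨rs₁, hlen₁, hmem₁, hreg₁⟩
    refine ⟨Fin.cons x₀ x, w, ?_, hwm, ?_, ?_⟩
    · intro i
      refine Fin.cases ?_ (fun i => ?_) i
      · simpa using hx₀m
      · simpa using hxm i
    · rw [Fin.range_cons, Ideal.span_insert, sup_assoc, hsp, hspan]
    · rw [List.ofFn_cons]
      exact IsWeaklyRegular.cons hx₀reg hwr

end

end Pool.Agent.H929TP
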