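import Mathlib
import Pool.Agent.H929TP.Core

set_option autoImplicit false

namespace Pool.Agent.H929TP

open scoped TensorProduct
open Pool.Agent.TH211.TP

section

variable {R : Type*} [CommRing R] {M : Type*} [AddCommGroup M] [Module R M]

/-- If the coordinates of finitely many relations are combinations of the coordinates indexed by
a set `T` with at most `e` elements, there is an element of the tensor power with a nonzero
coordinate which is a multivector of linearly dependent vectors. -/
lemma torsion_of_generated [IsDomain R] {n : ℕ} (m : Fin n → M)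
    (hm : Submodule.span R (Set.range m) = ⊤) {κ : Type*} [Fintype κ] [DecidableEq κ]
    (e : ℕ) (y : Fin n × κ → R) (hrel : ∀ k, ∑ i, y (i, k) • m i = 0)
    (T : Finset (Fin n × κ)) (hTe : T.card ≤ e) (hcard : e ≤ Fintype.card (Fin n × κ))
    (h1I : (1 : R) ∉ relIdeal (R := R) m) (hy0 : ∃ l, y l ≠ 0)
    (hgen : ∀ l, y l ∈ Ideal.span (y '' (↑T : Set (Fin n × κ)))) :
    Submodule.torsion R (⨂[R]^e M) ≠ ⊥ := by
  classical
  have hrep2 : ∀ l, ∃ (d : Fin n × κ → R), y l = ∑ t ∈ T, d t * y t := by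
    intro l
    have hp' : y l ∈ Submodule.span R (y '' (↑T : Set (Fin n × κ))) := hgen l
    rw [Submodule.mem_span_image_finset_iff_exists_fun'] at hp'
    obtain ⟨d, hd⟩ := hp'
    exact ⟨d, by rw [← hd]; simp⟩
  choose d hd using hrep2
  have hTne : ∃ t ∈ T, y t ≠ 0 := by
    by_contra hcon
    push Not at hcon
    obtain ⟨l, hl⟩ := hy0
    apply hl
    rw [hd l]
    exact Finset.sum_eq_zero fun t ht => by rw [hcon t ht, mul_zero]
  obtain ⟨S, hTS, hScard⟩ : ∃ S : Finset (Fin n × κ), T ⊆ S ∧ S.card = e := by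
    obtain ⟨S, h2, _, h3⟩ := Finset.exists_subsuperset_card_eq
      (Finset.subset_univ T) hTe (by rw [Finset.card_univ]; exact hcard)
    exact ⟨S, h2, h3⟩
  let u : Fin n × κ → (Fin n × κ → R) := fun s l =>
    if s ∈ T then (if l ∈ T then (if s = l then 1 else 0) else d l s)
    else (if s = l then 1 else 0)
  let g : Fin n × κ → R := fun s => if s ∈ T then y s else 0
  obtain ⟨t₀, ht₀T, ht₀⟩ := hTne
  refine torsion_of_family m hm e S hScard u g ⟨t₀, hTS ht₀T, ?_⟩ ?_ ?_
  · simp only [g, if_pos ht₀T]; exact ht₀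
  · intro k
    have hv : ∀ l, ∑ s ∈ S, g s * u s l = y l := by
      intro l
      have h1 : ∑ s ∈ S, g s * u s l = ∑ s ∈ T, g s * u s l := by
        refine (Finset.sum_subset hTS ?_).symm
        intro s _ hs
        simp only [g, if_neg hs, zero_mul]
      have h3 : ∑ s ∈ T, g s * u s l =
          ∑ s ∈ T, y s * (if l ∈ T then (if s = l then 1 else 0) else d l s) := by
        refine Finset.sum_congr rfl fun s hs => ?_
        simp only [g, u, if_pos hs]
      rw [h1, h3]
      by_cases hl : l ∈ T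
      · simp only [if_pos hl, mul_ite, mul_one, mul_zero]
        rw [Finset.sum_eq_single l (fun s _ hs => if_neg hs) (fun h => absurd hl h)]
        simp
      · simp only [if_neg hl]
        conv_rhs => rw [hd l]
        exact Finset.sum_congr rfl fun s _ => mul_comm _ _
    have h4 : ∑ s ∈ S, g s • (∑ i, u s (i, k) • m i)
        = ∑ i, (∑ s ∈ S, g s * u s (i, k)) • m i := by
      simp only [Finset.smul_sum, Finset.sum_smul, smul_smul]
      rw [Finset.sum_comm]
    rw [h4]
    have h5 : ∑ i, (∑ s ∈ S, g s * u s (i, k)) • m i = ∑ i, y (i, k) • m i :=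
      Finset.sum_congr rfl fun i _ => by rw [hv]
    rw [h5]
    exact hrel k
  · have hdet : Matrix.det (Matrix.of fun (s l : S) => u s l) = 1 := by
      rw [det_of_graded (fun s : S => if (s : Fin n × κ) ∈ T then 0 else 1)]
      · simp only [Matrix.of_apply]
        refine Finset.prod_eq_one ?_
        rintro ⟨s, hs⟩ _
        by_cases h1 : s ∈ T
        · simp [u, h1]
        · simp [u, h1]
      · rintro ⟨s, hs⟩ ⟨l, hl⟩ hle hne
        have hne' : s ≠ l := fun h => hne (Subtype.ext h)
        simp only [Matrix.of_apply]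
        simp only at hle
        by_cases h1 : s ∈ T
        · by_cases h2 : l ∈ T
          · simp [u, h1, h2, hne']
          · exfalso
            rw [if_pos h1, if_neg h2] at hle
            omega
        · simp only [u, if_neg h1, if_neg hne']
    rw [hdet]
    exact h1I

/-- Main theorem: if `x` is a regular sequence on `M^{⊗ e}` and all ideals are generated modulo
`(x)` by fewer than `e` elements, then `M^{⊗ e}` has torsion unless `M` is free. -/
theorem main [IsDomain R] [IsLocalRing R] [IsNoetherianRing R] {s : ℕ} (x : Fin s → R)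
    (hx : ∀ i, x i ∈ IsLocalRing.maximalIdeal R) (b e : ℕ)
    (hb : ∀ J : Ideal R, ∃ S : Finset R, S.card ≤ b ∧ (↑S : Set R) ⊆ J ∧
      J ≤ Ideal.span (↑S : Set R) ⊔ Ideal.span (Set.range x))
    (he : b + 1 ≤ e) [Module.Finite R M] (hM : ¬ Module.Free R M)
    (hreg : ∀ (i : Fin s) (v : ⨂[R]^e M),
      x i • v ∈ Ideal.span (x '' {j | j < i}) • (⊤ : Submodule R (⨂[R]^e M)) →
      v ∈ Ideal.span (x '' {j | j < i}) • (⊤ : Submodule R (⨂[R]^e M))) :
    Submodule.torsion R (⨂[R]^e M) ≠ ⊥ := by
  classical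
  obtain ⟨n, m, hm, hmin, hrel⟩ := exists_minimal_generators (R := R) hM
  have hn : 0 < n := by
    obtain ⟨_, _, i, _⟩ := hrel
    exact i.pos
  set I : Ideal R := relIdeal (R := R) m with hI
  have hIm : I ≤ IsLocalRing.maximalIdeal R := by
    rw [hI, relIdeal, Ideal.span_le]
    rintro _ ⟨z, hz, i, rfl⟩
    exact hmin z hz i
  have h1I : (1 : R) ∉ I := fun h =>
    (IsLocalRing.maximalIdeal.isMaximal R).ne_top ((Ideal.eq_top_iff_one _).mpr (hIm h))
  have hfg : (Submodule.span R
      {a : R | ∃ z : Fin n → R, ∑ i, z i • m i = 0 ∧ ∃ i, z i = a}).FG :=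
    IsNoetherian.noetherian (R := R) (M := R) _
  obtain ⟨s', hs's, hs'span⟩ := (Submodule.fg_span_iff_fg_span_finset_subset _).mp hfg
  have hch : ∀ a ∈ s', ∃ z : Fin n → R, ∑ i, z i • m i = 0 ∧ ∃ i, z i = a :=
    fun a ha => hs's ha
  choose! zz hzz hzi using hch
  let κ := ↥s' ⊕ Fin e
  let rel : κ → (Fin n → R) := Sum.elim (fun a => zz a) (fun _ => 0)
  have hrelκ : ∀ k, ∑ i, rel k i • m i = 0 := by
    rintro (a | j)
    · exact hzz a a.2
    · simp [rel]
  let y : Fin n × κ → R := fun p => rel p.2 p.1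
  have hyspan : Ideal.span (Set.range y) = I := by
    apply le_antisymm
    · rw [Ideal.span_le]
      rintro _ ⟨⟨i, k⟩, rfl⟩
      exact Submodule.subset_span ⟨rel k, hrelκ k, i, rfl⟩
    · have h1 : I = Submodule.span R (↑s' : Set R) := hs'span
      rw [h1, Submodule.span_le]
      intro a ha
      obtain ⟨i, hi⟩ := hzi a ha
      exact Submodule.subset_span ⟨(i, Sum.inl ⟨a, ha⟩), hi⟩
  have hyI : ∀ l, y l ∈ I := fun l => hyspan ▸ Submodule.subset_span ⟨l, rfl⟩
  have hI0 : ∃ l, y l ≠ 0 := by
    by_contra hcon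
    push Not at hcon
    obtain ⟨z, hz, i, hzi⟩ := hrel
    have h1 : z i ∈ I := Submodule.subset_span ⟨z, hz, i, rfl⟩
    rw [← hyspan] at h1
    have h2 : Ideal.span (Set.range y) ≤ ⊥ := by
      rw [Ideal.span_le]
      rintro _ ⟨l, rfl⟩
      exact hcon l
    exact hzi (h2 h1)
  obtain ⟨S₀, hscard, hsJ, hJs⟩ := hb I
  obtain ⟨T, hTcard, hT⟩ := exists_small_subset y (Ideal.span (Set.range x)) S₀
    (by rw [hyspan]; exact hsJ) (by rw [hyspan]; exact hJs)
  have hTb : T.card ≤ b := hTcard.trans hscard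
  have hcardΛ : e ≤ Fintype.card (Fin n × κ) := by
    rw [Fintype.card_prod, Fintype.card_fin, Fintype.card_sum, Fintype.card_fin]
    calc e ≤ Fintype.card ↥s' + e := Nat.le_add_left _ _
      _ = 1 * (Fintype.card ↥s' + e) := (one_mul _).symm
      _ ≤ n * (Fintype.card ↥s' + e) := Nat.mul_le_mul_right _ hn
  have hrep : ∀ l, ∃ (c : Fin n × κ → R) (y' : Fin s → R),
      y l = ∑ t ∈ T, c t * y t + ∑ j, x j * y' j := by
    intro l
    obtain ⟨p, hp, q, hq, hpq⟩ := Submodule.mem_sup.mp (hT l)
    have hp' : p ∈ Submodule.span R (y '' (↑T : Set (Fin n × κ))) := hp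
    rw [Submodule.mem_span_image_finset_iff_exists_fun'] at hp'
    obtain ⟨c, hc⟩ := hp'
    have hq' : q ∈ Ideal.span (Set.range x) • (⊤ : Submodule R R) := by
      rw [smul_eq_mul, Ideal.mul_top]; exact hq
    obtain ⟨y', hy'⟩ := exists_comb x q hq'
    refine ⟨c, y', ?_⟩
    rw [← hpq, ← hc, hy']
    simp
  choose c y' hcy using hrep
  refine torsion_of_generated m hm e y hrelκ T (by omega) hcardΛ h1I hI0 ?_
  -- Nakayama
  have h1 : I ≤ Ideal.span (y '' (↑T : Set (Fin n × κ))) ⊔ Ideal.span (Set.range x) • I := by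
    conv_lhs => rw [← hyspan]
    rw [Ideal.span_le]
    rintro _ ⟨l, rfl⟩
    by_cases hl : l ∈ T
    · exact Submodule.mem_sup_left (Submodule.subset_span ⟨l, hl, rfl⟩)
    · have h2 : (insert l T).card ≤ e := by
        rw [Finset.card_insert_of_notMem hl]; omega
      obtain ⟨S, h3, _, h4⟩ := Finset.exists_subsuperset_card_eq
        (Finset.subset_univ (insert l T)) h2 (by rw [Finset.card_univ]; exact hcardΛ)
      have h5 := remainder_mem m hm x e hreg y hrelκ T c (fun j l => y' l j) hcy l hl S h3 h4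
      rw [SetLike.mem_coe, hcy l]
      exact Submodule.add_mem _ (Submodule.mem_sup_left
        (Submodule.sum_mem _ fun t ht =>
          Ideal.mul_mem_left _ _ (Submodule.subset_span ⟨t, ht, rfl⟩)))
        (Submodule.mem_sup_right h5)
  have h2 : I ≤ Ideal.span (y '' (↑T : Set (Fin n × κ))) := by
    refine Submodule.le_of_le_smul_of_le_jacobson_bot (I := Ideal.span (Set.range x))
      (IsNoetherian.noetherian I) ?_ h1
    rw [IsLocalRing.jacobson_eq_maximalIdeal ⊥ bot_ne_top, Ideal.span_le]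
    rintro _ ⟨i, rfl⟩
    exact hx i
  exact fun l => h2 (hyI l)

end

end Pool.Agent.H929TP
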