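import Mathlib
import Pool.Graph.R_seed8.TH211.TP.Dim
import Pool.Agent.H929TP.Main

set_option autoImplicit false

namespace Pool.Agent.H929TP

open scoped TensorProduct
open Pool.Agent.TH211.TP

section

variable {R : Type*} [CommRing R]

/-- If `R/(X,y)` has length at most `n`, all ideals are generated modulo `X` by `n` elements. -/
lemma gens_mod_ideal [IsLocalRing R] [IsNoetherianRing R] (X : Ideal R) (y : R)
    (hy : y ∈ IsLocalRing.maximalIdeal R) (n : ℕ)
    (hn : Module.length R (R ⧸ (X ⊔ Ideal.span {y})) ≤ n) (J : Ideal R) :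
    ∃ s : Finset R, s.card ≤ n ∧ (↑s : Set R) ⊆ J ∧
      J ≤ Ideal.span (↑s : Set R) ⊔ X := by
  classical
  let V : Submodule R (R ⧸ X) := Submodule.map X.mkQ J
  have h1 := length_sub_le V y
  have h2 : Module.length R ((R ⧸ X) ⧸ LinearMap.range (LinearMap.lsmul R (R ⧸ X) y)) ≤
      Module.length R (R ⧸ (X ⊔ Ideal.span {y})) := by
    have hle : X ⊔ Ideal.span {y} ≤
        LinearMap.ker ((LinearMap.range (LinearMap.lsmul R (R ⧸ X) y)).mkQ ∘ₗ X.mkQ) := by
      refine sup_le ?_ ?_
      · intro z hz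
        show (LinearMap.range (LinearMap.lsmul R (R ⧸ X) y)).mkQ (X.mkQ z) = 0
        have : X.mkQ z = 0 := by
          rw [Submodule.mkQ_apply, Submodule.Quotient.mk_eq_zero]
          exact hz
        rw [this, map_zero]
      · rw [Ideal.span_le]
        intro z hz
        rw [Set.mem_singleton_iff] at hz
        subst hz
        show (LinearMap.range (LinearMap.lsmul R (R ⧸ X) z)).mkQ (X.mkQ z) = 0
        rw [Submodule.mkQ_apply (LinearMap.range (LinearMap.lsmul R (R ⧸ X) z)),
          Submodule.Quotient.mk_eq_zero]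
        refine ⟨X.mkQ 1, ?_⟩
        rw [LinearMap.lsmul_apply, ← map_smul, smul_eq_mul, mul_one]
    refine Module.length_le_of_surjective ((X ⊔ Ideal.span {y}).liftQ _ hle) ?_
    intro z
    obtain ⟨z', rfl⟩ := Submodule.mkQ_surjective _ z
    obtain ⟨r, rfl⟩ := Submodule.mkQ_surjective _ z'
    exact ⟨(X ⊔ Ideal.span {y}).mkQ r, rfl⟩
  obtain ⟨sb, hcard, hspan⟩ := exists_generators n (V ⧸ LinearMap.range (LinearMap.lsmul R V y))
    (h1.trans (h2.trans hn))
  let ρ : J →ₗ[R] V := LinearMap.codRestrict V (X.mkQ ∘ₗ J.subtype)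
    (fun j => ⟨j, j.2, rfl⟩)
  have hρ : Function.Surjective ρ := by
    rintro ⟨_, j, hj, rfl⟩
    exact ⟨⟨j, hj⟩, rfl⟩
  let π : J →ₗ[R] (V ⧸ LinearMap.range (LinearMap.lsmul R V y)) :=
    (LinearMap.range (LinearMap.lsmul R V y)).mkQ ∘ₗ ρ
  have hπ : Function.Surjective π := (Submodule.mkQ_surjective _).comp hρ
  let g := Function.surjInv hπ
  have hg : ∀ z, π (g z) = z := Function.surjInv_eq hπ
  refine ⟨sb.image (fun z => (g z : R)), Finset.card_image_le.trans hcard, ?_, ?_⟩
  · intro z hz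
    rw [Finset.coe_image] at hz
    obtain ⟨z', _, rfl⟩ := hz
    exact (g z').2
  · set s : Finset R := sb.image (fun z => (g z : R)) with hs
    refine Submodule.le_of_le_smul_of_le_jacobson_bot (I := Ideal.span {y})
      (IsNoetherian.noetherian J) ?_ ?_
    · rw [IsLocalRing.jacobson_eq_maximalIdeal ⊥ bot_ne_top, Ideal.span_le]
      intro z hz
      rw [Set.mem_singleton_iff] at hz
      rw [hz]; exact hy
    · intro j hj
      have h3 : Submodule.span R (↑sb : Set (V ⧸ LinearMap.range (LinearMap.lsmul R V y))) ≤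
          Submodule.map π (Submodule.comap J.subtype (Ideal.span (↑s : Set R))) := by
        rw [Submodule.span_le]
        intro q hq
        refine ⟨g q, Submodule.subset_span ?_, hg q⟩
        rw [hs, Finset.coe_image]
        exact ⟨q, hq, rfl⟩
      have h4 : π ⟨j, hj⟩ ∈ Submodule.span R (↑sb : Set (V ⧸ LinearMap.range
          (LinearMap.lsmul R V y))) := by rw [hspan]; trivial
      obtain ⟨j₁, hj₁, hj₁'⟩ := h3 h4
      have h5 : π (⟨j, hj⟩ - j₁) = 0 := by rw [map_sub, hj₁', sub_self]
      have h6 : ρ (⟨j, hj⟩ - j₁) ∈ LinearMap.range (LinearMap.lsmul R V y) := by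
        have : (LinearMap.range (LinearMap.lsmul R V y)).mkQ (ρ (⟨j, hj⟩ - j₁)) = 0 := h5
        rwa [Submodule.mkQ_apply, Submodule.Quotient.mk_eq_zero] at this
      obtain ⟨v, hv⟩ := h6
      obtain ⟨j₂, rfl⟩ := hρ v
      have h7 : X.mkQ (j - (j₁ : R) - y * (j₂ : R)) = 0 := by
        have h8 := congrArg (fun t : V => (t : R ⧸ X)) hv
        have h9 : X.mkQ (y * (j₂ : R)) = X.mkQ (j - (j₁ : R)) := by
          have : X.mkQ (y * (j₂ : R)) = y • X.mkQ (j₂ : R) := by
            rw [← map_smul, smul_eq_mul]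
          rw [this]; exact h8
        rw [map_sub, h9, sub_self]
      have h10 : j - (j₁ : R) - y * (j₂ : R) ∈ X := by
        rwa [Submodule.mkQ_apply, Submodule.Quotient.mk_eq_zero] at h7
      have h11 : j = ((j₁ : R) + (j - (j₁ : R) - y * (j₂ : R))) + y * (j₂ : R) := by ring
      rw [h11]
      refine Submodule.add_mem _ (Submodule.mem_sup_left (Submodule.add_mem _
        (Submodule.mem_sup_left hj₁) (Submodule.mem_sup_right h10)))
        (Submodule.mem_sup_right ?_)
      exact Ideal.mul_mem_mul (Ideal.mem_span_singleton_self y) j₂.2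

/-- If `R/X` has dimension at most one there is `y` in the maximal ideal such that `R/(X,y)` has
finite length. -/
lemma exists_last_param [IsLocalRing R] [IsNoetherianRing R] (X : Ideal R)
    (hX : X ≤ IsLocalRing.maximalIdeal R) (hdim : ringKrullDim (R ⧸ X) ≤ 1) :
    ∃ y ∈ IsLocalRing.maximalIdeal R, ∃ n : ℕ,
      Module.length R (R ⧸ (X ⊔ Ideal.span {y})) ≤ n := by
  classical
  have hne : X ≠ ⊤ := fun h => (IsLocalRing.maximalIdeal.isMaximal R).ne_top
    (top_le_iff.mp (h ▸ hX))
  have : Nontrivial (R ⧸ X) := Ideal.Quotient.nontrivial_iff.mpr hne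
  have hloc : IsLocalRing (R ⧸ X) :=
    IsLocalRing.of_surjective' (Ideal.Quotient.mk _) Ideal.Quotient.mk_surjective
  have hdim' : Ring.KrullDimLE 1 (R ⧸ X) := by
    rw [Ring.krullDimLE_iff]
    exact_mod_cast hdim
  obtain ⟨yb, hyb, hP⟩ := exists_param_one hdim'
  obtain ⟨y, rfl⟩ := Ideal.Quotient.mk_surjective yb
  have hy : y ∈ IsLocalRing.maximalIdeal R := by
    by_contra hcon
    have hu := IsLocalRing.notMem_maximalIdeal.mp hcon
    have := hu.map (Ideal.Quotient.mk X)
    exact (IsLocalRing.mem_maximalIdeal _).mp hyb this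
  refine ⟨y, hy, ?_⟩
  have hxy : ∀ P : Ideal R, P.IsPrime → X ≤ P → y ∈ P → P.IsMaximal := by
    intro P hPp hxP hyP
    have hker : RingHom.ker (Ideal.Quotient.mk X) ≤ P := by rwa [Ideal.mk_ker]
    have hPm : (P.map (Ideal.Quotient.mk X)).IsPrime :=
      Ideal.map_isPrime_of_surjective Ideal.Quotient.mk_surjective hker
    have hmax := hP _ hPm (Ideal.mem_map_of_mem _ hyP)
    have hcomap := Ideal.comap_map_of_surjective (Ideal.Quotient.mk X)
      Ideal.Quotient.mk_surjective P
    have h4 : (P.map (Ideal.Quotient.mk X)).comap (Ideal.Quotient.mk X) = P := by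
      rw [hcomap, sup_eq_left]
      exact hker
    have := Ideal.comap_isMaximal_of_surjective (Ideal.Quotient.mk X)
      Ideal.Quotient.mk_surjective (K := P.map (Ideal.Quotient.mk X))
    rwa [h4] at this
  let Y : Ideal R := X ⊔ Ideal.span {y}
  let B := R ⧸ Y
  have hB0 : Ring.KrullDimLE 0 B := by
    refine Ring.KrullDimLE.mk₀ fun I hI => ?_
    have h1 : (I.comap (Ideal.Quotient.mk Y)).IsPrime := Ideal.IsPrime.comap _
    have h2 : ∀ z ∈ Y, z ∈ I.comap (Ideal.Quotient.mk Y) := by
      intro z hz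
      rw [Ideal.mem_comap, Ideal.Quotient.eq_zero_iff_mem.mpr hz]
      exact Submodule.zero_mem _
    have h3 := hxy _ h1 (fun z hz => h2 z (Submodule.mem_sup_left hz))
      (h2 y (Submodule.mem_sup_right (Ideal.mem_span_singleton_self y)))
    have h4 : (I.comap (Ideal.Quotient.mk Y)).map (Ideal.Quotient.mk Y) = I :=
      Ideal.map_comap_of_surjective _ Ideal.Quotient.mk_surjective I
    rcases Ideal.map_eq_top_or_isMaximal_of_surjective (Ideal.Quotient.mk Y)
      Ideal.Quotient.mk_surjective h3 with h5 | h5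
    · rw [h4] at h5; exact absurd h5 hI.ne_top
    · rwa [h4] at h5
  have hart : IsArtinianRing B := isArtinianRing_iff_krullDimLE_zero.mpr hB0
  have hlen : Module.length R B ≠ ⊤ := by
    rw [Module.length_eq_of_surjective (R := B) (S := R) (M := B) Ideal.Quotient.mk_surjective]
    exact Module.length_ne_top
  obtain ⟨n, hn⟩ := ENat.ne_top_iff_exists.mp hlen
  exact ⟨n, hn.symm.le⟩

end

end Pool.Agent.H929TP
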