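import Mathlib
import Pool.Agent.H929TP.Koszul

set_option autoImplicit false

namespace Pool.Agent.H929TP

universe u

/-- `N` is an `s`-th syzygy over `R`: every module is a `0`-th syzygy, and `N` is an `(s+1)`-st
syzygy if it embeds in a free module `F` such that the cokernel is an `s`-th syzygy.
Equivalently, there is an exact sequence `0 → N → F₁ → ⋯ → F_s` with all `F_i` free. -/
def IsSyzygy (R : Type u) [CommRing R] :
    ℕ → ∀ (N : Type u) [AddCommGroup N] [Module R N], Prop
  | 0, _, _, _ => True
  | s + 1, N, _, _ => ∃ (F : Type u) (_ : AddCommGroup F) (_ : Module R F) (f : N →ₗ[R] F),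
      Module.Free R F ∧ Function.Injective f ∧ IsSyzygy R s (F ⧸ LinearMap.range f)

section

variable {R : Type u} [CommRing R]

/-- Elementary regularity of a sequence on a module. -/
def ER {s : ℕ} (x : Fin s → R) (N : Type u) [AddCommGroup N] [Module R N] : Prop :=
  ∀ (i : Fin s) (v : N), x i • v ∈ Ideal.span (x '' {j | j < i}) • (⊤ : Submodule R N) →
      v ∈ Ideal.span (x '' {j | j < i}) • (⊤ : Submodule R N)

lemma ER.initial {s : ℕ} {x : Fin s → R} {N : Type u} [AddCommGroup N] [Module R N]
    (h : ER x N) (t : ℕ) (ht : t ≤ s) : ER (fun k : Fin t => x (Fin.castLE ht k)) N := by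
  intro i v hv
  have h4 : (fun k : Fin t => x (Fin.castLE ht k)) '' {j | j < i} =
      x '' {j | j < Fin.castLE ht i} := by
    ext z
    constructor
    · rintro ⟨j, hj, rfl⟩
      exact ⟨Fin.castLE ht j, by simpa using hj, rfl⟩
    · rintro ⟨j, hj, rfl⟩
      have hj' : j < Fin.castLE ht i := hj
      have hj2 : (j : ℕ) < (i : ℕ) := by simpa [Fin.lt_def] using hj'
      refine ⟨⟨j, hj2.trans i.2⟩, ?_, ?_⟩
      · exact hj2
      · rfl
  rw [h4] at hv ⊢
  exact h _ v hv

lemma mem_smul_top_iff_of_basis {F : Type*} [AddCommGroup F] [Module R F] {ι : Type*}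
    (B : Module.Basis ι R F) (J : Ideal R) (v : F) :
    v ∈ J • (⊤ : Submodule R F) ↔ ∀ i, B.repr v i ∈ J := by
  constructor
  · intro hv i
    have h : J • (⊤ : Submodule R F) ≤ Submodule.comap (B.coord i) J := by
      rw [Submodule.smul_le]
      intro r hr n _
      rw [Submodule.mem_comap, map_smul, smul_eq_mul]
      exact Ideal.mul_mem_right _ _ hr
    exact h hv
  · intro h
    rw [← B.linearCombination_repr v, Finsupp.linearCombination_apply, Finsupp.sum]
    exact Submodule.sum_mem _ fun i _ => Submodule.smul_mem_smul (h i) trivial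

lemma ER.free {s : ℕ} {x : Fin s → R} (h : ER x R) (F : Type u) [AddCommGroup F] [Module R F]
    [Module.Free R F] : ER x F := by
  intro i v hv
  let B := Module.Free.chooseBasis R F
  rw [mem_smul_top_iff_of_basis B] at hv ⊢
  intro b
  have h1 := hv b
  rw [map_smul, Finsupp.smul_apply] at h1
  have h2 := h i (B.repr v b) (by
    rw [smul_eq_mul, Ideal.mul_top]; exact h1)
  rwa [smul_eq_mul, Ideal.mul_top] at h2

/-- An `R`-regular sequence of length `s` is regular on `s`-th syzygies. -/
lemma ER.syz : ∀ (s : ℕ) (x : Fin s → R) (_ : ER x R) (N : Type u) [AddCommGroup N] [Module R N]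
    (_ : IsSyzygy R s N), ER x N := by
  intro s
  induction s with
  | zero => intro x _ N _ _ _ i; exact i.elim0
  | succ s ih =>
    intro x hx N _ _ hN
    obtain ⟨F, _, _, f, hF, hf, hC⟩ := hN
    have hFx : ER x F := hx.free F
    have hx' : ER (fun k : Fin s => x (Fin.castLE (Nat.le_succ s) k)) R := hx.initial s _
    have hCx := ih _ hx' (F ⧸ LinearMap.range f) hC
    intro i v hv
    -- initial part
    have hi : (i : ℕ) ≤ s := Nat.lt_succ_iff.mp i.2
    let p : Fin (i : ℕ) → R := fun k => x ⟨k, k.2.trans i.2⟩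
    have himg : x '' {j | j < i} = Set.range p := by
      ext z
      constructor
      · rintro ⟨j, hj, rfl⟩
        exact ⟨⟨j, hj⟩, rfl⟩
      · rintro ⟨k, rfl⟩
        exact ⟨⟨k, k.2.trans i.2⟩, k.2, rfl⟩
    have hpC : ER p (F ⧸ LinearMap.range f) := hCx.initial (i : ℕ) hi
    have hfv : f v ∈ Ideal.span (x '' {j | j < i}) • (⊤ : Submodule R F) := by
      apply hFx i
      have h1 : x i • f v = f (x i • v) := (map_smul f _ _).symm
      rw [h1]
      have h2 : Submodule.map f (Ideal.span (x '' {j | j < i}) • (⊤ : Submodule R N)) ≤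
          Ideal.span (x '' {j | j < i}) • (⊤ : Submodule R F) := by
        rw [Submodule.map_smul'']
        exact Submodule.smul_mono le_rfl le_top
      exact h2 ⟨_, hv, rfl⟩
    rw [himg] at hfv ⊢
    obtain ⟨φ, hφ⟩ := exists_comb p _ hfv
    have hC0 : ∑ k, p k • (Submodule.Quotient.mk (φ k) : F ⧸ LinearMap.range f) = 0 := by
      have h1 : (Submodule.Quotient.mk (f v) : F ⧸ LinearMap.range f) = 0 := by
        rw [Submodule.Quotient.mk_eq_zero]; exact ⟨v, rfl⟩
      rw [hφ] at h1
      have h2 : ((LinearMap.range f).mkQ (∑ k, p k • φ k)) = 0 := h1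
      rw [map_sum] at h2
      simpa using h2
    obtain ⟨ρ, hρ1, hρ2, hρ3⟩ := koszul (i : ℕ) p hpC
      (fun k => (Submodule.Quotient.mk (φ k) : F ⧸ LinearMap.range f)) hC0
    have hlift : ∀ q : F ⧸ LinearMap.range f, ∃ w : F, Submodule.Quotient.mk w = q :=
      fun q => Submodule.Quotient.mk_surjective _ q
    choose lift hlift' using hlift
    let r : Fin (i : ℕ) → Fin (i : ℕ) → F := fun j k =>
      if j < k then lift (ρ j k) else if k < j then - lift (ρ k j) else 0
    have hr : ∀ j k, (Submodule.Quotient.mk (r j k) : F ⧸ LinearMap.range f) = ρ j k := by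
      intro j k
      rcases lt_trichotomy j k with h | h | h
      · simp only [r, if_pos h, hlift']
      · subst h
        simp only [r, lt_irrefl, if_false, hρ2, Submodule.Quotient.mk_zero]
      · simp only [r, if_neg h.le.not_gt, if_pos h, Submodule.Quotient.mk_neg, hlift']
        rw [hρ1 j k]
    have hranti : ∀ j k, r j k = - r k j := by
      intro j k
      rcases lt_trichotomy j k with h | h | h
      · simp only [r, if_pos h, if_neg h.le.not_gt, neg_neg]
      · subst h; simp [r]
      · simp only [r, if_pos h, if_neg h.le.not_gt]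
    have hmem : ∀ k, φ k - ∑ l, p l • r k l ∈ LinearMap.range f := by
      intro k
      rw [← Submodule.Quotient.mk_eq_zero]
      have h1 : (LinearMap.range f).mkQ (φ k - ∑ l, p l • r k l) =
          (Submodule.Quotient.mk (φ k) : F ⧸ LinearMap.range f) - ∑ l, p l • ρ k l := by
        rw [map_sub, map_sum]
        congr 1
        exact Finset.sum_congr rfl fun l _ => by rw [map_smul, Submodule.mkQ_apply, hr]
      have h2 : (LinearMap.range f).mkQ (φ k - ∑ l, p l • r k l) = 0 := by
        rw [h1, hρ3 k, sub_self]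
      exact h2
    choose w hw using hmem
    have hzero : ∑ k, p k • ∑ l, p l • r k l = 0 := by
      have h1 : ∑ k, p k • ∑ l, p l • r k l = ∑ k, ∑ l, (p k * p l) • r k l := by
        refine Finset.sum_congr rfl fun k _ => ?_
        rw [Finset.smul_sum]
        exact Finset.sum_congr rfl fun l _ => by rw [smul_smul]
      rw [h1]
      rw [← Finset.sum_product' (f := fun k l => (p k * p l) • r k l)]
      refine Finset.sum_involution (fun q _ => (q.2, q.1)) ?_ ?_ ?_ ?_
      · rintro ⟨j, k⟩ _
        simp only
        rw [hranti j k, mul_comm (p k) (p j), smul_neg, neg_add_cancel]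
      · rintro ⟨j, k⟩ _ hne heq
        apply hne
        have h2 : j = k := by
          have := congrArg Prod.snd heq
          simpa using this
        subst h2
        simp [r]
      · rintro ⟨j, k⟩ _; simp
      · rintro ⟨j, k⟩ _; rfl
    have hv' : v = ∑ k, p k • w k := by
      apply hf
      rw [map_sum, hφ]
      have h1 : ∑ k, f (p k • w k) = ∑ k, p k • (φ k - ∑ l, p l • r k l) :=
        Finset.sum_congr rfl fun k _ => by rw [map_smul, hw k]
      rw [h1]
      simp only [smul_sub, Finset.sum_sub_distrib]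
      rw [hzero, sub_zero]
    rw [hv']
    exact Submodule.sum_mem _ fun k _ =>
      Submodule.smul_mem_smul (Submodule.subset_span ⟨k, rfl⟩) trivial

/-- Positive syzygies over a domain are torsionfree. -/
lemma torsion_eq_bot_of_isSyzygy [IsDomain R] (s : ℕ) (hs : 1 ≤ s) (N : Type u)
    [AddCommGroup N] [Module R N] (h : IsSyzygy R s N) : Submodule.torsion R N = ⊥ := by
  obtain ⟨t, rfl⟩ : ∃ t, s = t + 1 := ⟨s - 1, by omega⟩
  obtain ⟨F, _, _, f, hF, hf, _⟩ := h
  rw [eq_bot_iff]
  intro v hv
  rw [Submodule.mem_torsion_iff] at hv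
  obtain ⟨a, ha⟩ := hv
  have h1 : (a : R) • f v = 0 := by
    rw [← map_smul]
    have : (a : R) • v = 0 := ha
    rw [this, map_zero]
  have h2 : f v = 0 := by
    have h3 : (a : R) ≠ 0 := nonZeroDivisors.ne_zero a.2
    exact (smul_eq_zero.mp h1).resolve_left h3
  have h4 : v = 0 := hf (by rw [h2, map_zero])
  rw [h4]; exact Submodule.zero_mem _

end

end Pool.Agent.H929TP
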