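import Mathlib
import Pool.Agent.H929TP.Param
import Pool.Agent.H929TP.Syz
import Pool.Agent.H929TP.Generic

set_option autoImplicit false

namespace Pool.Agent.H929TP

open scoped TensorProduct
open RingTheory.Sequence

universe u

section

variable (R : Type u) [CommRing R] [IsDomain R] [IsLocalRing R] [IsNoetherianRing R]

/-- Parameter version. -/
theorem not_regular {s : ℕ} (x : Fin s → R) (y : R) (n : ℕ)
    (hx : ∀ i, x i ∈ IsLocalRing.maximalIdeal R) (hy : y ∈ IsLocalRing.maximalIdeal R)
    (hn : Module.length R (R ⧸ (Ideal.span (Set.range x) ⊔ Ideal.span {y})) ≤ n)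
    (M : Type u) [AddCommGroup M] [Module R M] [Module.Finite R M] (hM : ¬ Module.Free R M)
    (e : ℕ) (he : n + 1 ≤ e) (htor : Submodule.torsion R (⨂[R]^e M) = ⊥) :
    ¬ IsWeaklyRegular (⨂[R]^e M) (List.ofFn x) := by
  intro h
  exact main x hx n e (gens_mod_ideal _ y hy n hn) he hM (elem_of_isWeaklyRegular x h) htor

/-- Syzygy version. -/
theorem not_syzygy {s : ℕ} (hs : 1 ≤ s) (x : Fin s → R) (y : R) (n : ℕ)
    (hx : ∀ i, x i ∈ IsLocalRing.maximalIdeal R) (hy : y ∈ IsLocalRing.maximalIdeal R)
    (hn : Module.length R (R ⧸ (Ideal.span (Set.range x) ⊔ Ideal.span {y})) ≤ n)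
    (hreg : IsWeaklyRegular R (List.ofFn x))
    (M : Type u) [AddCommGroup M] [Module R M] [Module.Finite R M] (hM : ¬ Module.Free R M)
    (e : ℕ) (he : n + 1 ≤ e) : ¬ IsSyzygy R s (⨂[R]^e M) := by
  intro h
  have h1 : ER x (⨂[R]^e M) := ER.syz s x (elem_of_isWeaklyRegular x hreg) _ h
  exact main x hx n e (gens_mod_ideal _ y hy n hn) he hM h1
    (torsion_eq_bot_of_isSyzygy s hs _ h)

/-- Existence version for rings with a long regular sequence. -/
theorem exists_not_syzygy (s : ℕ) (hs : 1 ≤ s) (rs : List R) (hlen : rs.length = s)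
    (hreg : IsRegular R rs) (hdim : ringKrullDim R ≤ s + 1) :
    ∃ e₀ : ℕ, ∀ e ≥ e₀, ∀ (M : Type u) [AddCommGroup M] [Module R M] [Module.Finite R M],
      ¬ Module.Free R M → ¬ IsSyzygy R s (⨂[R]^e M) := by
  subst hlen
  let x : Fin rs.length → R := fun i => rs.get i
  have hofn : List.ofFn x = rs := List.ofFn_get rs
  have hxm : ∀ i, x i ∈ IsLocalRing.maximalIdeal R := by
    intro i
    by_contra hcon
    have hu := IsLocalRing.notMem_maximalIdeal.mp hcon
    apply hreg.top_ne_smul
    have h1 : Ideal.ofList rs = ⊤ := by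
      refine Ideal.eq_top_of_isUnit_mem _ (Ideal.subset_span ?_) hu
      exact List.get_mem rs i
    rw [h1, Submodule.top_smul]
  have hrange : Ideal.span (Set.range x) = Ideal.ofList rs := by
    refine congrArg Ideal.span (Set.ext fun z => ?_)
    constructor
    · rintro ⟨i, rfl⟩; exact List.get_mem rs i
    · intro hz
      have hz' : z ∈ rs := hz
      obtain ⟨i, hi⟩ := List.get_of_mem hz'
      exact ⟨i, hi⟩
  have hXm : Ideal.span (Set.range x) ≤ IsLocalRing.maximalIdeal R := by
    rw [Ideal.span_le]; rintro _ ⟨i, rfl⟩; exact hxm i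
  have hd : ringKrullDim (R ⧸ Ideal.span (Set.range x)) ≤ 1 := by
    have h1 := ringKrullDim_add_length_eq_ringKrullDim_of_isRegular rs hreg
    rw [← h1] at hdim
    rw [hrange]
    have hcase : ∀ q : WithBot ℕ∞, ∀ k : ℕ, q + (k : WithBot ℕ∞) ≤ (k : WithBot ℕ∞) + 1 →
        q ≤ 1 := by
      intro q k h
      induction q using WithBot.recBotCoe with
      | bot => exact bot_le
      | coe q =>
        induction q using ENat.recTopCoe with
        | top =>
          exfalso
          have h2 : (((⊤ : ℕ∞) + (k : ℕ∞) : ℕ∞) : WithBot ℕ∞) ≤ (((k : ℕ∞) + 1 : ℕ∞) :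
              WithBot ℕ∞) := by push_cast; exact h
          rw [WithBot.coe_le_coe, top_add, top_le_iff] at h2
          exact absurd h2 (by exact_mod_cast ENat.natCast_ne_top (k + 1))
        | coe j =>
          have h2 : (((j : ℕ∞) + (k : ℕ∞) : ℕ∞) : WithBot ℕ∞) ≤ (((k : ℕ∞) + 1 : ℕ∞) :
              WithBot ℕ∞) := by push_cast; exact_mod_cast h
          rw [WithBot.coe_le_coe] at h2
          have h3 : j + k ≤ k + 1 := by exact_mod_cast h2
          have h4 : j ≤ 1 := by omega
          exact_mod_cast h4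
    exact hcase _ _ hdim
  obtain ⟨y, hy, n, hn⟩ := exists_last_param _ hXm hd
  refine ⟨n + 1, fun e he M _ _ _ hM => ?_⟩
  exact not_syzygy R hs x y n hxm hy hn (by rw [hofn]; exact hreg.toIsWeaklyRegular) M hM e he

/-- Initial parts of regular sequences on finite modules over a local ring are regular. -/
lemma isRegular_take (N : Type u) [AddCommGroup N] [Module R N] [Module.Finite R N]
    (rs : List R) (hm : ∀ r ∈ rs, r ∈ IsLocalRing.maximalIdeal R) (h : IsRegular N rs) (k : ℕ) :
    IsRegular N (rs.take k) := by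
  have hN : Nontrivial N := by
    by_contra hcon
    rw [not_nontrivial_iff_subsingleton] at hcon
    exact h.top_ne_smul (Subsingleton.elim _ _)
  have h1 : IsWeaklyRegular N (rs.take k ++ rs.drop k) := by
    rw [List.take_append_drop]; exact h.toIsWeaklyRegular
  refine ⟨((isWeaklyRegular_append_iff N _ _).mp h1).1, ?_⟩
  intro htop
  have hle : Ideal.ofList (rs.take k) ≤ IsLocalRing.maximalIdeal R := by
    rw [Ideal.ofList, Ideal.span_le]
    intro r hr
    exact hm r (List.mem_of_mem_take hr)
  have := Submodule.eq_bot_of_le_smul_of_le_jacobson_bot (Ideal.ofList (rs.take k))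
    (⊤ : Submodule R N) (Module.Finite.fg_top) htop.le
    (hle.trans (IsLocalRing.jacobson_eq_maximalIdeal ⊥ bot_ne_top).ge)
  exact (bot_ne_top (α := Submodule R N)) this.symm

/-- Depth version. -/
theorem depth_le [Infinite (IsLocalRing.ResidueField R)] (d : ℕ) (z : Fin d → R) (n : ℕ)
    (hd : ringKrullDim R = d) (hz : ∀ i, z i ∈ IsLocalRing.maximalIdeal R)
    (hn : Module.length R (R ⧸ Ideal.span (Set.range z)) ≤ n)
    (M : Type u) [AddCommGroup M] [Module R M] [Module.Finite R M] (hM : ¬ Module.Free R M)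
    (e : ℕ) (he : n + 1 ≤ e) (htor : Submodule.torsion R (⨂[R]^e M) = ⊥)
    (rs : List R) (hrm : ∀ r ∈ rs, r ∈ IsLocalRing.maximalIdeal R)
    (hrs : IsRegular (⨂[R]^e M) rs) : rs.length + 2 ≤ d := by
  classical
  by_contra hcon
  -- the dimension is positive
  have hd0 : d ≠ 0 := by
    rintro rfl
    have hK : Ring.KrullDimLE 0 R := by
      rw [Ring.krullDimLE_iff]
      exact hd.le
    have hfield : IsField R := by
      have hbot : (⊥ : Ideal R).IsMaximal :=
        (Ring.krullDimLE_zero_iff.mp hK) _ Ideal.isPrime_bot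
      rw [IsLocalRing.isField_iff_maximalIdeal_eq]
      exact (IsLocalRing.eq_maximalIdeal hbot).symm
    let _ := hfield.toField
    exact hM (Module.Free.of_divisionRing R M)
  obtain ⟨s, rfl⟩ : ∃ s, d = s + 1 := ⟨d - 1, by omega⟩
  have hlen : s ≤ rs.length := by omega
  set N := ⨂[R]^e M with hN
  have hNn : Nontrivial N := by
    by_contra hc
    rw [not_nontrivial_iff_subsingleton] at hc
    exact hrs.top_ne_smul (Subsingleton.elim _ _)
  have hreg : ∃ rs' : List R, rs'.length = s ∧
      (∀ r ∈ rs', r ∈ IsLocalRing.maximalIdeal R) ∧ IsRegular N rs' :=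
    ⟨rs.take s, by rw [List.length_take]; omega, fun r hr => hrm r (List.mem_of_mem_take hr),
      isRegular_take R N rs hrm hrs s⟩
  let z' : Fin s ⊕ Fin 1 → R := fun i => z (finSumFinEquiv i)
  have hrange : Set.range z' = Set.range z := finSumFinEquiv.surjective.range_comp z
  -- primes containing all `z i`
  have hprim : ∀ P : Ideal R, P.IsPrime → Module.annihilator R N ≤ P → (∀ i, z' i ∈ P) →
      P = IsLocalRing.maximalIdeal R := by
    intro P hP _ hPz
    have hle : Ideal.span (Set.range z) ≤ P := by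
      rw [← hrange, Ideal.span_le]; rintro _ ⟨i, rfl⟩; exact hPz i
    -- finite length quotient: some power of the maximal ideal is contained in the span
    have hfl : Module.length R (R ⧸ Ideal.span (Set.range z)) ≠ ⊤ := by
      intro h; rw [h, top_le_iff] at hn; exact ENat.natCast_ne_top n hn
    have hart : IsFiniteLength R (R ⧸ Ideal.span (Set.range z)) :=
      Module.length_ne_top_iff.mp hfl
    have hfl2 : Module.length R (R ⧸ P) ≠ ⊤ := by
      have h1 : Module.length R (R ⧸ P) ≤ Module.length R (R ⧸ Ideal.span (Set.range z)) := by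
        refine Module.length_le_of_surjective
          (Submodule.mapQ (Ideal.span (Set.range z)) P LinearMap.id hle) ?_
        intro q
        obtain ⟨r, rfl⟩ := Submodule.Quotient.mk_surjective _ q
        exact ⟨Submodule.Quotient.mk r, rfl⟩
      exact ne_top_of_le_ne_top hfl h1
    have hartP : IsArtinianRing (R ⧸ P) := by
      have h2 : Module.length (R ⧸ P) (R ⧸ P) ≠ ⊤ := by
        rwa [← Module.length_eq_of_surjective (R := R ⧸ P) (S := R) (M := R ⧸ P)
          Ideal.Quotient.mk_surjective]
      have h3 := Module.length_ne_top_iff.mp h2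
      exact (isFiniteLength_iff_isNoetherian_isArtinian.mp h3).2
    have hf : IsField (R ⧸ P) := IsArtinianRing.isField_of_isDomain _
    have hmax : P.IsMaximal := Ideal.Quotient.maximal_of_isField P hf
    exact IsLocalRing.eq_maximalIdeal hmax
  obtain ⟨x, w, hxm, hwm, hsp, hwr⟩ := exists_generic 1 s N z' (fun i => hz _) hprim hreg
  have hw : Set.range w = {w 0} := by
    ext q; simp [Fin.exists_fin_one, eq_comm]
  rw [hw, hrange] at hsp
  refine not_regular R x (w 0) n hxm (hwm 0) ?_ M hM e he htor hwr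
  rw [hsp]
  exact hn

/-- Existence of parameters. -/
lemma exists_params_dim (d : ℕ) (hd : ringKrullDim R = d) :
    ∃ (z : Fin d → R) (n : ℕ), (∀ i, z i ∈ IsLocalRing.maximalIdeal R) ∧
      Module.length R (R ⧸ Ideal.span (Set.range z)) ≤ n := by
  classical
  obtain ⟨s, hs, hcard⟩ :=
    (IsLocalRing.maximalIdeal R).exists_finset_card_eq_height_of_isNoetherianRing
  have hcd : s.card = d := by
    have h1 : ((IsLocalRing.maximalIdeal R).height : WithBot ℕ∞) = ringKrullDim R :=
      IsLocalRing.maximalIdeal_height_eq_ringKrullDim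
    rw [hd, ← hcard] at h1
    exact_mod_cast h1
  subst hcd
  let z : Fin s.card → R := fun i => (s.equivFin.symm i : R)
  have hrange : Set.range z = (↑s : Set R) := by
    ext q
    constructor
    · rintro ⟨i, rfl⟩; exact (s.equivFin.symm i).2
    · intro hq
      exact ⟨s.equivFin ⟨q, hq⟩, by simp [z]⟩
  have hzm : ∀ i, z i ∈ IsLocalRing.maximalIdeal R := fun i =>
    hs.1.2 (Ideal.subset_span (s.equivFin.symm i).2)
  let Y : Ideal R := Ideal.span (↑s : Set R)
  let B := R ⧸ Y
  have hB0 : Ring.KrullDimLE 0 B := by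
    refine Ring.KrullDimLE.mk₀ fun I hI => ?_
    have h1 : (I.comap (Ideal.Quotient.mk Y)).IsPrime := Ideal.IsPrime.comap _
    have h2 : Y ≤ I.comap (Ideal.Quotient.mk Y) := by
      intro q hq
      rw [Ideal.mem_comap, Ideal.Quotient.eq_zero_iff_mem.mpr hq]
      exact Submodule.zero_mem _
    have h3 : (I.comap (Ideal.Quotient.mk Y)).IsMaximal := by
      have h4 : I.comap (Ideal.Quotient.mk Y) ≤ IsLocalRing.maximalIdeal R :=
        IsLocalRing.le_maximalIdeal h1.ne_top
      have h5 : IsLocalRing.maximalIdeal R ≤ I.comap (Ideal.Quotient.mk Y) :=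
        hs.2 ⟨h1, h2⟩ h4
      rw [le_antisymm h4 h5]
      infer_instance
    have h4 : (I.comap (Ideal.Quotient.mk Y)).map (Ideal.Quotient.mk Y) = I :=
      Ideal.map_comap_of_surjective _ Ideal.Quotient.mk_surjective I
    rcases Ideal.map_eq_top_or_isMaximal_of_surjective (Ideal.Quotient.mk Y)
      Ideal.Quotient.mk_surjective h3 with h5 | h5
    · rw [h4] at h5; exact absurd h5 hI.ne_top
    · rwa [h4] at h5
  have hart : IsArtinianRing B := isArtinianRing_iff_krullDimLE_zero.mpr hB0
  have hlen : Module.length R B ≠ ⊤ := by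
    rw [Module.length_eq_of_surjective (R := B) (S := R) (M := B) Ideal.Quotient.mk_surjective]
    exact Module.length_ne_top
  obtain ⟨n, hn⟩ := ENat.ne_top_iff_exists.mp hlen
  refine ⟨z, n, hzm, ?_⟩
  rw [hrange]
  exact hn.symm.le

end

end Pool.Agent.H929TP
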